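import Pool.Agent.H85.CH2.Jump

/-!
At and above the critical value, the mean of the density restricted to the event that the exponent
stays below a barrier tends to zero.
-/

set_option autoImplicit false

open MeasureTheory ProbabilityTheory Filter Topology Set
open scoped ENNReal NNReal

namespace Pool.Agent.H85.CH2

open Pool.Agent.Results.MP_ab74d4_pr.ChaosConvergence
open Pool.Agent.Y977.CH

variable {Ω : Type*} {mΩ : MeasurableSpace Ω} {P : Measure Ω} {ξ : ℕ → Ω → ℂ}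

/-- the upper barrier -/
noncomputable def ub (K : ℝ) (i : ℕ) : ℝ := i * Real.log 2 + 2 * Real.log ((i : ℝ) + 1) + K

/-- the points whose exponent stays below the upper barrier up to level `k` -/
def HB (P : Measure Ω) (ξ : ℕ → Ω → ℂ) (γ K : ℝ) (k : ℕ) (ω : Ω) : Set S1 :=
  {z : S1 | ∀ i ∈ Finset.range (k + 1), EE P ξ γ (2 ^ i) ω z < ub K i}

/-- mean of the density on the barrier event -/
noncomputable def AZ (P : Measure Ω) (ξ : ℕ → Ω → ℂ) (γ K : ℝ) (k : ℕ) (z : S1) : ℝ≥0∞ :=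
  ∫⁻ ω, {ω | z ∈ HB P ξ γ K k ω}.indicator (fun ω => DD P ξ γ (2 ^ k) ω z) ω ∂P

lemma tail_small (f : ℕ → ℝ) (hf : Summable f) (h0 : ∀ k, 0 ≤ f k) (ε : ℝ) (hε : 0 < ε) :
    ∃ M0, ∀ M, M0 ≤ M → ∀ n, ∑ k ∈ Finset.Ico M n, f k ≤ ε := by
  have h1 := hf.hasSum.tendsto_sum_nat
  have h2 : ∀ᶠ m in atTop, ∑' k, f k - ε < ∑ k ∈ Finset.range m, f k :=
    h1.eventually_const_lt (by linarith)
  obtain ⟨M0, hM0⟩ := eventually_atTop.mp h2
  refine ⟨M0, fun M hM n => ?_⟩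
  rcases le_or_gt M n with hmn | hmn
  · have h3 : ∑ k ∈ Finset.range n, f k ≤ ∑' k, f k := hf.sum_le_tsum _ fun k _ => h0 k
    rw [← Finset.sum_range_add_sum_Ico _ hmn] at h3
    linarith [hM0 M hM]
  · rw [Finset.Ico_eq_empty (by omega)]
    simp [hε.le]

lemma exists_level (α C1 D : ℝ) (hα : 0 < α) (hC : 0 ≤ C1) (hD : 0 ≤ D) (m : ℕ) :
    ∃ m' : ℕ, m ≤ m' ∧ 16 ≤ α * m' - C1 ∧ 2 * Real.log ((m' : ℝ) + 1) + D ≤ √(α * m' - C1) := by
  set R : ℝ := ((8 + D) ^ 2 + C1 + α + 16) / α with hR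
  have hR0 : 0 ≤ R := by rw [hR]; positivity
  set t : ℕ := ⌈R⌉₊ + 1 + m with ht
  have ht1 : (1 : ℝ) ≤ t := by
    rw [ht]; push_cast
    linarith [(Nat.cast_nonneg ⌈R⌉₊ : (0 : ℝ) ≤ _), (Nat.cast_nonneg m : (0 : ℝ) ≤ m)]
  have htR : R ≤ t := by
    rw [ht]; push_cast
    linarith [Nat.le_ceil R, (Nat.cast_nonneg m : (0 : ℝ) ≤ m)]
  have ht1' : 1 ≤ t := by exact_mod_cast ht1
  have ht4 : 1 ≤ t ^ 4 := Nat.one_le_pow _ _ ht1'
  refine ⟨t ^ 4 - 1, ?_, ?_⟩
  · have h1 : t ≤ t ^ 4 := Nat.le_self_pow (by norm_num) t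
    omega
  · have hcast : ((t ^ 4 - 1 : ℕ) : ℝ) = (t : ℝ) ^ 4 - 1 := by
      rw [Nat.cast_sub ht4]; push_cast; ring
    rw [hcast, sub_add_cancel]
    have hαR : α * R = (8 + D) ^ 2 + C1 + α + 16 := by rw [hR]; field_simp
    have h2 : (8 + D) ^ 2 * (t : ℝ) ^ 2 + C1 + α + 16 ≤ α * (t : ℝ) ^ 4 := by
      have h3 : R ≤ (t : ℝ) ^ 2 := by nlinarith
      have h4 : (1 : ℝ) ≤ (t : ℝ) ^ 2 := by nlinarith
      have h5 : α * R * (t : ℝ) ^ 2 ≤ α * (t : ℝ) ^ 2 * (t : ℝ) ^ 2 := by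
        have : α * R ≤ α * (t : ℝ) ^ 2 := mul_le_mul_of_nonneg_left h3 hα.le
        exact mul_le_mul_of_nonneg_right this (by positivity)
      rw [hαR] at h5
      have h6 : (C1 + α + 16) * 1 ≤ (C1 + α + 16) * (t : ℝ) ^ 2 :=
        mul_le_mul_of_nonneg_left h4 (by positivity)
      have h7 : α * (t : ℝ) ^ 2 * (t : ℝ) ^ 2 = α * (t : ℝ) ^ 4 := by ring
      rw [h7] at h5
      nlinarith
    have h8 : (8 * (t : ℝ) + D) ^ 2 ≤ (8 + D) ^ 2 * (t : ℝ) ^ 2 := by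
      rw [← mul_pow]
      apply pow_le_pow_left₀ (by positivity)
      nlinarith
    constructor
    · have : 0 ≤ (8 + D) ^ 2 * (t : ℝ) ^ 2 := by positivity
      linarith
    · apply Real.le_sqrt_of_sq_le
      have hlog : Real.log ((t : ℝ) ^ 4) ≤ 4 * t := by
        rw [Real.log_pow]
        push_cast
        have := Real.log_le_sub_one_of_pos (show (0 : ℝ) < t by linarith)
        linarith
      have hlog0 : 0 ≤ Real.log ((t : ℝ) ^ 4) := Real.log_nonneg (one_le_pow₀ ht1)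
      calc (2 * Real.log ((t : ℝ) ^ 4) + D) ^ 2 ≤ (8 * (t : ℝ) + D) ^ 2 := by
            apply pow_le_pow_left₀ (by positivity)
            linarith
        _ ≤ _ := by linarith

/-- the past -/
noncomputable abbrev past (ξ : ℕ → Ω → ℂ) (M : ℕ) : MeasurableSpace Ω := ⨆ k ∈ Set.Iio M, sg ξ k

/-- the future -/
noncomputable abbrev future (ξ : ℕ → Ω → ℂ) (M : ℕ) : MeasurableSpace Ω := ⨆ k ∈ Set.Ici M, sg ξ k

lemma indep_pf (h : Hyp P ξ) (M : ℕ) : Indep (past ξ M) (future ξ M) P := by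
  apply indep_iSup_of_disjoint (fun k => (h.meas k).comap_le)
    ((iIndepFun_iff_iIndep _ _ _).mp h.indep)
  rw [Set.disjoint_left]
  intro k hk hk'
  exact absurd (Set.mem_Iio.mp hk) (not_lt.mpr (Set.mem_Ici.mp hk'))

lemma past_le (h : Hyp P ξ) (M : ℕ) : past ξ M ≤ mΩ :=
  iSup₂_le fun k _ => (h.meas k).comap_le

lemma future_le (h : Hyp P ξ) (M : ℕ) : future ξ M ≤ mΩ :=
  iSup₂_le fun k _ => (h.meas k).comap_le

lemma meas_past {M k : ℕ} (hk : k < M) : Measurable[past ξ M] (ξ k) := by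
  have h1 : Measurable[sg ξ k] (ξ k) := comap_measurable (ξ k)
  exact h1.mono (le_iSup₂_of_le k hk le_rfl) le_rfl

lemma meas_future {M k : ℕ} (hk : M ≤ k) : Measurable[future ξ M] (ξ k) := by
  have h1 : Measurable[sg ξ k] (ξ k) := comap_measurable (ξ k)
  exact h1.mono (le_iSup₂_of_le k hk le_rfl) le_rfl

lemma meas_ET_z (γ : ℝ) (M N : ℕ) (z : S1) (m' : MeasurableSpace Ω)
    (hm' : ∀ k ∈ Finset.Ico M N, Measurable[m'] (ξ k)) :
    Measurable[m'] (fun ω => ET P ξ γ M N ω z) := by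
  unfold ET
  apply Finset.measurable_sum
  intro k hk
  have h1 : Measurable[m'] (fun ω => LL k ((z : ℂ) ^ (k + 1)) (ξ k ω)) :=
    (measurable_LL_right k _).comp (hm' k hk)
  exact (h1.const_mul γ).sub_const _

lemma EE_eq_ET (γ : ℝ) (n : ℕ) (ω : Ω) (z : S1) : EE P ξ γ n ω z = ET P ξ γ 0 n ω z := by
  unfold ET EE
  rw [Nat.Ico_zero_eq_range]

lemma EE_add (γ : ℝ) {M N : ℕ} (hMN : M ≤ N) (ω : Ω) (z : S1) :
    EE P ξ γ N ω z = EE P ξ γ M ω z + ET P ξ γ M N ω z := by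
  unfold ET EE
  rw [Finset.sum_range_add_sum_Ico _ hMN]

lemma meas_EE_past (γ : ℝ) (n M : ℕ) (hn : n ≤ M) (z : S1) :
    Measurable[past ξ M] (fun ω => EE P ξ γ n ω z) := by
  simp only [EE_eq_ET]
  apply meas_ET_z
  intro k hk
  exact meas_past (lt_of_lt_of_le (Finset.mem_Ico.mp hk).2 hn)

lemma measSet_HB (γ K : ℝ) (k : ℕ) (z : S1) :
    MeasurableSet[past ξ (2 ^ k)] {ω | z ∈ HB P ξ γ K k ω} := by
  have e : {ω | z ∈ HB P ξ γ K k ω} =
      ⋂ i ∈ Finset.range (k + 1), {ω | EE P ξ γ (2 ^ i) ω z < ub K i} := by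
    ext ω
    simp only [HB, mem_ofPred_eq, mem_iInter]
  rw [e]
  apply Finset.measurableSet_biInter
  intro i hi
  have hik : i ≤ k := Nat.lt_succ_iff.mp (Finset.mem_range.mp hi)
  exact measurableSet_lt (meas_EE_past γ (2 ^ i) (2 ^ k) (Nat.pow_le_pow_right (by norm_num) hik) z)
    measurable_const

/-- Independence of the past part and a future factor. -/
lemma AZ_mul (h : Hyp P ξ) (γ K : ℝ) (m : ℕ) (z : S1) (G : Ω → ℝ≥0∞)
    (hG : Measurable[future ξ (2 ^ m)] G) :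
    ∫⁻ ω, {ω | z ∈ HB P ξ γ K m ω}.indicator (fun ω => DD P ξ γ (2 ^ m) ω z) ω * G ω ∂P =
      AZ P ξ γ K m z * ∫⁻ ω, G ω ∂P := by
  apply lintegral_mul_eq_lintegral_mul_lintegral_of_independent_measurableSpace
    (past_le h (2 ^ m)) (future_le h (2 ^ m)) (indep_pf h (2 ^ m)) _ hG
  have h1 : Measurable[past ξ (2 ^ m)] (fun ω => DD P ξ γ (2 ^ m) ω z) := by
    unfold DD
    exact (meas_EE_past γ (2 ^ m) (2 ^ m) le_rfl z).exp.ennreal_ofReal
  exact h1.indicator (measSet_HB γ K m z)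

lemma HB_mono (γ K : ℝ) {m k : ℕ} (hmk : m ≤ k) (ω : Ω) : HB P ξ γ K k ω ⊆ HB P ξ γ K m ω := by
  intro z hz i hi
  exact hz i (Finset.range_mono (by omega) hi)

lemma DD_mul (γ : ℝ) {M N : ℕ} (hMN : M ≤ N) (ω : Ω) (z : S1) :
    DD P ξ γ N ω z = DD P ξ γ M ω z * ENNReal.ofReal (Real.exp (ET P ξ γ M N ω z)) := by
  unfold DD
  rw [← ENNReal.ofReal_mul (Real.exp_pos _).le, ← Real.exp_add, ← EE_add γ hMN]

lemma AZ_growth (h : Hyp P ξ) (γ K : ℝ) {m k : ℕ} (hmk : m ≤ k) (z : S1) :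
    AZ P ξ γ K k z ≤ AZ P ξ γ K m z * ENNReal.ofReal (Real.exp (dd P ξ (2 * |γ|))) := by
  have hpow : (2 : ℕ) ^ m ≤ 2 ^ k := Nat.pow_le_pow_right (by norm_num) hmk
  have hGm : Measurable[future ξ (2 ^ m)]
      (fun ω => ENNReal.ofReal (Real.exp (ET P ξ γ (2 ^ m) (2 ^ k) ω z))) :=
    (meas_ET_z γ (2 ^ m) (2 ^ k) z _ fun q hq =>
      meas_future (Finset.mem_Ico.mp hq).1).exp.ennreal_ofReal
  have h1 := AZ_mul h γ K m z _ hGm
  calc AZ P ξ γ K k z ≤ ∫⁻ ω, {ω | z ∈ HB P ξ γ K m ω}.indicator (fun ω => DD P ξ γ (2 ^ m) ω z) ω *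
        ENNReal.ofReal (Real.exp (ET P ξ γ (2 ^ m) (2 ^ k) ω z)) ∂P := by
        unfold AZ
        apply lintegral_mono
        intro ω
        beta_reduce
        by_cases hω : z ∈ HB P ξ γ K k ω
        · have hω' : z ∈ HB P ξ γ K m ω := HB_mono γ K hmk ω hω
          have a1 : ω ∈ {ω | z ∈ HB P ξ γ K k ω} := hω
          have a2 : ω ∈ {ω | z ∈ HB P ξ γ K m ω} := hω'
          rw [indicator_of_mem a1, indicator_of_mem a2, DD_mul γ hpow]
        · have a1 : ω ∉ {ω | z ∈ HB P ξ γ K k ω} := hω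
          rw [indicator_of_notMem a1]
          exact zero_le
    _ = AZ P ξ γ K m z * ∫⁻ ω, ENNReal.ofReal (Real.exp (ET P ξ γ (2 ^ m) (2 ^ k) ω z)) ∂P := h1
    _ ≤ AZ P ξ γ K m z * ENNReal.ofReal (Real.exp (dd P ξ (2 * |γ|))) := by
        gcongr
        refine (block_upper h (2 * |γ|) γ (by linarith [abs_nonneg γ]) _ _ z).trans ?_
        apply ENNReal.ofReal_le_ofReal
        apply Real.exp_le_exp.mpr
        exact h.sum_dl_le _ _

lemma AZ_le (h : Hyp P ξ) (γ K : ℝ) (k : ℕ) (z : S1) :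
    AZ P ξ γ K k z ≤ ENNReal.ofReal (Real.exp (dd P ξ (2 * |γ|))) := by
  unfold AZ
  calc _ ≤ ∫⁻ ω, ENNReal.ofReal (Real.exp (ET P ξ γ 0 (2 ^ k) ω z)) ∂P := by
        apply lintegral_mono
        intro ω
        refine (indicator_le_self _ _ _).trans ?_
        unfold DD
        rw [EE_eq_ET]
    _ ≤ _ := by
        refine (block_upper h (2 * |γ|) γ (by linarith [abs_nonneg γ]) _ _ z).trans ?_
        apply ENNReal.ofReal_le_ofReal
        apply Real.exp_le_exp.mpr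
        exact h.sum_dl_le _ _

/-- lower bound for the variance of a dyadic block -/
lemma QQ_ge (h : Hyp P ξ) (σ δ : ℝ) (hσ : |σ| = 1) (hδ : 0 < δ) (z : S1) (hz : z ∈ JJ σ δ)
    (m m' : ℕ) (hmm : m ≤ m') :
    Real.log 2 / 2 * m' - ((m * Real.log 2 + 1) / 2 + 2 / δ ^ 2) ≤
      QQ P ξ (2 ^ m) (2 ^ m') z := by
  have hpow : (2 : ℕ) ^ m ≤ 2 ^ m' := Nat.pow_le_pow_right (by norm_num) hmm
  have h1 := h.abs_sum_qq (2 ^ m) z (norm_coe z) (δ ^ 2) (by positivity)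
    (sq_le_norm_one_sub_sq σ δ hσ hδ.le z hz)
  have h2 := h.abs_sum_qq (2 ^ m') z (norm_coe z) (δ ^ 2) (by positivity)
    (sq_le_norm_one_sub_sq σ δ hσ hδ.le z hz)
  obtain ⟨b1, b2⟩ := harmonic_bounds m
  obtain ⟨b3, b4⟩ := harmonic_bounds m'
  have h3 : ∑ k ∈ Finset.range (2 ^ m'), qq P ξ k ((z : ℂ) ^ (k + 1)) =
      ∑ k ∈ Finset.range (2 ^ m), qq P ξ k ((z : ℂ) ^ (k + 1)) + QQ P ξ (2 ^ m) (2 ^ m') z := by
    unfold QQ
    rw [Finset.sum_range_add_sum_Ico _ hpow]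
  have h4 := (abs_le.mp h1).2
  have h5 := (abs_le.mp h2).1
  have h6 : 2 / δ ^ 2 = 1 / δ ^ 2 + 1 / δ ^ 2 := by ring
  rw [h6]
  linarith

/-- At and above the critical value, the mean of the density on the barrier event tends to zero. -/
lemma AZ_tendsto (h : Hyp P ξ) (γ : ℝ) (hγ : 4 ≤ γ ^ 2) (hs : Summable (tl P ξ)) (K : ℝ)
    (σ δ : ℝ) (hσ : |σ| = 1) (hδ : 0 < δ) (z : S1) (hz : z ∈ JJ σ δ) :
    Tendsto (fun k => AZ P ξ γ K k z) atTop (𝓝 0) := by
  have := h.prob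
  set c : ℝ := Real.exp (-(4 * γ ^ 2)) / 16 with hc
  have hc0 : 0 < c := by rw [hc]; positivity
  have hc1 : c < 1 := by
    have : Real.exp (-(4 * γ ^ 2)) ≤ 1 := by
      rw [Real.exp_le_one_iff]; linarith
    rw [hc]; linarith
  -- thresholds
  obtain ⟨M1, hM1⟩ := tail_small (lo P ξ (2 * γ)) (h.summable_lo (2 * γ) hs)
    (h.lo_nonneg (2 * γ)) (1 / 2) (by norm_num)
  obtain ⟨M2, hM2⟩ := tail_small (dl P ξ (2 * |γ|)) (h.summable_dl' (2 * |γ|))
    (fun k => dl_nonneg P ξ _ k) (Real.log (1 + c / 2)) (Real.log_pos (by linarith))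
  set M0 : ℕ := max (max M1 M2) ⌈(2 * γ) ^ 2 / 2⌉₊ with hM0
  have hexp : ∀ M, M0 ≤ M → ∀ n, Real.exp (∑ k ∈ Finset.Ico M n, dl P ξ (2 * |γ|) k) ≤ 1 + c / 2 := by
    intro M hM n
    rw [← Real.exp_log (show 0 < 1 + c / 2 by linarith)]
    apply Real.exp_le_exp.mpr
    exact hM2 M (((le_max_right _ _).trans (le_max_left _ _)).trans hM) n
  set κ : ℝ := |γ| + γ ^ 2 / 2 with hκ
  have hκ0 : 0 ≤ κ := by rw [hκ]; positivity
  -- contraction
  have hstep : ∀ m, M0 ≤ m → ∃ m', m ≤ m' ∧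
      AZ P ξ γ K m' z ≤ AZ P ξ γ K m z * ENNReal.ofReal (1 - c / 2) := by
    intro m hm
    have hmM : M0 ≤ 2 ^ m := hm.trans (Nat.lt_two_pow_self).le
    set C1 : ℝ := (m * Real.log 2 + 1) / 2 + 2 / δ ^ 2 with hC1
    have hlog2 : 0 < Real.log 2 := Real.log_pos (by norm_num)
    have hC10 : 0 ≤ C1 := by rw [hC1]; positivity
    obtain ⟨m', hmm', hl1, hl2⟩ := exists_level (Real.log 2 / 2) C1 (|K| + 2 ^ m * κ + 2 * C1)
      (by positivity) hC10 (by positivity) m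
    have hpow : (2 : ℕ) ^ m ≤ 2 ^ m' := Nat.pow_le_pow_right (by norm_num) hmm'
    refine ⟨m', hmm', ?_⟩
    set Q : ℝ := QQ P ξ (2 ^ m) (2 ^ m') z with hQ
    have hQge : Real.log 2 / 2 * m' - C1 ≤ Q := QQ_ge h σ δ hσ hδ z hz m m' hmm'
    have hQ16 : 16 ≤ Q := hl1.trans hQge
    have hsq : √(Real.log 2 / 2 * m' - C1) ≤ √Q := Real.sqrt_le_sqrt hQge
    set s : ℝ := γ ^ 2 / 2 * Q + √Q with hsdef
    have hsge : ub K m' + 2 ^ m * κ ≤ s := by
      have h1 : 2 * Q ≤ γ ^ 2 / 2 * Q := by nlinarith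
      have h2 : (m' : ℝ) * Real.log 2 - 2 * C1 ≤ 2 * Q := by linarith
      have h3 := le_abs_self K
      unfold ub
      rw [hsdef]
      linarith
    set A : Set Ω := {ω | s < ET P ξ γ (2 ^ m) (2 ^ m') ω z} with hA
    have hETm : Measurable[future ξ (2 ^ m)] (fun ω => ET P ξ γ (2 ^ m) (2 ^ m') ω z) :=
      meas_ET_z γ (2 ^ m) (2 ^ m') z _ fun q hq => meas_future (Finset.mem_Ico.mp hq).1
    have hAm : MeasurableSet[future ξ (2 ^ m)] A := measurableSet_lt measurable_const hETm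
    have hAm' : MeasurableSet A := future_le h (2 ^ m) _ hAm
    have hGm : Measurable[future ξ (2 ^ m)] (Aᶜ.indicator
        (fun ω => ENNReal.ofReal (Real.exp (ET P ξ γ (2 ^ m) (2 ^ m') ω z)))) :=
      hETm.exp.ennreal_ofReal.indicator hAm.compl
    have hjump := jump h γ hγ (2 ^ m) (2 ^ m')
      ((Nat.le_ceil _).trans (by exact_mod_cast (le_max_right _ _).trans hmM))
      (fun n => hM1 _ (((le_max_left _ _).trans (le_max_left _ _)).trans hmM) n)
      (fun n => (hexp _ hmM n).trans (by linarith)) z hQ16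
    have htot : ∫⁻ ω, ENNReal.ofReal (Real.exp (ET P ξ γ (2 ^ m) (2 ^ m') ω z)) ∂P ≤
        ENNReal.ofReal (1 + c / 2) :=
      (block_upper h (2 * |γ|) γ (by linarith [abs_nonneg γ]) _ _ z).trans
        (ENNReal.ofReal_le_ofReal (hexp _ hmM _))
    have hsplit : ∫⁻ ω, ENNReal.ofReal (Real.exp (ET P ξ γ (2 ^ m) (2 ^ m') ω z)) ∂P =
        ∫⁻ ω, Aᶜ.indicator (fun ω => ENNReal.ofReal (Real.exp (ET P ξ γ (2 ^ m) (2 ^ m') ω z))) ω ∂P +
        ∫⁻ ω, A.indicator (fun ω => ENNReal.ofReal (Real.exp (ET P ξ γ (2 ^ m) (2 ^ m') ω z))) ω ∂P := by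
      rw [lintegral_indicator hAm', lintegral_indicator hAm'.compl, add_comm]
      exact (lintegral_add_compl _ hAm').symm
    have hno : ∫⁻ ω, Aᶜ.indicator
        (fun ω => ENNReal.ofReal (Real.exp (ET P ξ γ (2 ^ m) (2 ^ m') ω z))) ω ∂P ≤
        ENNReal.ofReal (1 - c / 2) := by
      have h1 : ∫⁻ ω, Aᶜ.indicator
          (fun ω => ENNReal.ofReal (Real.exp (ET P ξ γ (2 ^ m) (2 ^ m') ω z))) ω ∂P +
          ENNReal.ofReal c ≤ ENNReal.ofReal (1 - c / 2) + ENNReal.ofReal c := by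
        rw [← ENNReal.ofReal_add (by linarith) hc0.le]
        have e : 1 - c / 2 + c = 1 + c / 2 := by ring
        rw [e]
        refine le_trans ?_ htot
        rw [hsplit]
        gcongr
      exact (ENNReal.add_le_add_iff_right ENNReal.ofReal_ne_top).mp h1
    have hprod := AZ_mul h γ K m z _ hGm
    calc AZ P ξ γ K m' z ≤ ∫⁻ ω, {ω | z ∈ HB P ξ γ K m ω}.indicator
          (fun ω => DD P ξ γ (2 ^ m) ω z) ω * Aᶜ.indicator
          (fun ω => ENNReal.ofReal (Real.exp (ET P ξ γ (2 ^ m) (2 ^ m') ω z))) ω ∂P := by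
          unfold AZ
          apply lintegral_mono
          intro ω
          beta_reduce
          by_cases hω : z ∈ HB P ξ γ K m' ω
          · have hω' : z ∈ HB P ξ γ K m ω := HB_mono γ K hmm' ω hω
            have a1 : ω ∈ {ω | z ∈ HB P ξ γ K m' ω} := hω
            have a2 : ω ∈ {ω | z ∈ HB P ξ γ K m ω} := hω'
            have a3 : ω ∈ Aᶜ := by
              show ¬ (s < ET P ξ γ (2 ^ m) (2 ^ m') ω z)
              have h1 : EE P ξ γ (2 ^ m') ω z < ub K m' := hω m' (Finset.self_mem_range_succ m')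
              rw [EE_add γ hpow] at h1
              have h2 := h.ET_compare γ (2 ^ m) (2 ^ m) le_rfl ω z
              have h3 : ET P ξ γ (2 ^ m) (2 ^ m) ω z = 0 := by
                unfold ET
                rw [Finset.Ico_self, Finset.sum_empty]
              rw [h3, sub_zero, ← EE_eq_ET, ← hκ] at h2
              have h4 := (abs_le.mp h2).1
              push_cast at h4
              rw [not_lt]
              linarith
            rw [indicator_of_mem a1, indicator_of_mem a2, indicator_of_mem a3, DD_mul γ hpow]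
          · have a1 : ω ∉ {ω | z ∈ HB P ξ γ K m' ω} := hω
            rw [indicator_of_notMem a1]
            exact zero_le
      _ = _ := hprod
      _ ≤ _ := by gcongr
  -- iteration
  set D0 : ℝ := Real.exp (dd P ξ (2 * |γ|)) with hD0
  have hD0pos : 0 < D0 := Real.exp_pos _
  have hiter : ∀ J : ℕ, ∃ m, M0 ≤ m ∧ AZ P ξ γ K m z ≤ ENNReal.ofReal ((1 - c / 2) ^ J * D0) := by
    intro J
    induction J with
    | zero =>
      refine ⟨M0, le_rfl, ?_⟩
      rw [pow_zero, one_mul]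
      exact AZ_le h γ K M0 z
    | succ J ih =>
      obtain ⟨m, hm, hle⟩ := ih
      obtain ⟨m', hmm', hle'⟩ := hstep m hm
      refine ⟨m', hm.trans hmm', hle'.trans ?_⟩
      have h1 : 0 ≤ 1 - c / 2 := by linarith
      calc AZ P ξ γ K m z * ENNReal.ofReal (1 - c / 2)
          ≤ ENNReal.ofReal ((1 - c / 2) ^ J * D0) * ENNReal.ofReal (1 - c / 2) := by gcongr
        _ = ENNReal.ofReal ((1 - c / 2) ^ (J + 1) * D0) := by
            rw [← ENNReal.ofReal_mul (by positivity)]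
            congr 1
            ring
  rw [ENNReal.tendsto_nhds_zero]
  intro ε hε
  have hT : Tendsto (fun J : ℕ => ENNReal.ofReal ((1 - c / 2) ^ J * D0 * D0)) atTop (𝓝 0) := by
    have h1 : Tendsto (fun J : ℕ => (1 - c / 2) ^ J * D0 * D0) atTop (𝓝 (0 * D0 * D0)) :=
      ((tendsto_pow_atTop_nhds_zero_of_lt_one (by linarith) (by linarith)).mul_const _).mul_const _
    rw [zero_mul, zero_mul] at h1
    have h2 := ENNReal.tendsto_ofReal h1
    rwa [ENNReal.ofReal_zero] at h2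
  have hev := (ENNReal.tendsto_nhds_zero.mp hT ε hε).exists
  obtain ⟨J, hJ⟩ := hev
  obtain ⟨m, hm, hle⟩ := hiter J
  filter_upwards [eventually_ge_atTop m] with k hk
  refine (AZ_growth h γ K hk z).trans (le_trans ?_ hJ)
  have h1 : 0 ≤ 1 - c / 2 := by linarith
  rw [ENNReal.ofReal_mul (by positivity)]
  gcongr

end Pool.Agent.H85.CH2
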