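import Pool.Agent.H85.CH2.Contract

/-!
At and above the critical value `γ = 2` the limit measure vanishes.
-/

set_option autoImplicit false

open MeasureTheory ProbabilityTheory Filter Topology Set
open scoped ENNReal NNReal

namespace Pool.Agent.H85.CH2

open Pool.Agent.Results.MP_ab74d4_pr.ChaosConvergence
open Pool.Agent.Y977.CH

variable {Ω : Type*} {mΩ : MeasurableSpace Ω} {P : Measure Ω} {ξ : ℕ → Ω → ℂ}

lemma exp_EE_le (h : Hyp P ξ) (γ : ℝ) (m : ℕ) (ω : Ω) (z : S1) :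
    Real.exp (EE P ξ γ (2 ^ m) ω z) ≤
      2 ^ m * ∫ θ in (0 : ℝ)..(2 * Real.pi), HH P ξ γ (2 ^ m) ω θ := by
  obtain ⟨j, hj, θ, hθ, hθz⟩ := exists_arc 1 le_rfl z
  have hj0 : j = 0 := by omega
  subst hj0
  simp only [Nat.cast_zero, mul_zero, Nat.cast_one, zero_add, mul_one, div_one] at hθ
  have hpow : (1 : ℝ) ≤ ((2 ^ m : ℕ) : ℝ) := by
    exact_mod_cast (Nat.one_le_two_pow : 1 ≤ 2 ^ m)
  have h1 := h.sup_le γ (2 ^ m) Nat.one_le_two_pow ω 0 (2 * Real.pi) (by
    have := Real.pi_gt_three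
    nlinarith) θ hθ
  have h2 : ((z : S1) : ℂ) = ee θ := by
    rw [← hθz]
    rfl
  rw [h2]
  push_cast at h1
  exact h1

/-- Almost surely the exponent stays below an upper barrier. -/
lemma ae_barrier (h : Hyp P ξ) (γ : ℝ) :
    ∀ᵐ ω ∂P, ∃ K : ℕ, ∀ (m : ℕ) (z : S1), EE P ξ γ (2 ^ m) ω z < ub K m := by
  have hsum : Summable (fun m : ℕ => 1 / ((m : ℝ) + 1) ^ 2) := by
    have := (summable_nat_add_iff 1).mpr (Real.summable_one_div_nat_pow.mpr (by norm_num : 1 < 2))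
    refine this.congr fun k => ?_
    push_cast
    rfl
  have h1 := ae_tsum_ne_top (P := P)
    (fun m ω => ENNReal.ofReal (1 / ((m : ℝ) + 1) ^ 2) * XX P ξ γ (2 ^ m) ω)
    (fun m => (h.measurable_XX γ _).const_mul _) (by
      have hle : ∀ m : ℕ, ∫⁻ ω, ENNReal.ofReal (1 / ((m : ℝ) + 1) ^ 2) * XX P ξ γ (2 ^ m) ω ∂P
          ≤ ENNReal.ofReal (1 / ((m : ℝ) + 1) ^ 2) * CX P ξ γ := by
        intro m
        rw [lintegral_const_mul' _ _ ENNReal.ofReal_ne_top]
        gcongr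
        exact h.lintegral_XX_le γ _ Nat.one_le_two_pow
      refine ne_top_of_le_ne_top ?_ (ENNReal.tsum_le_tsum hle)
      rw [ENNReal.tsum_mul_right]
      apply ENNReal.mul_ne_top _ (CX_ne_top γ)
      rw [← ENNReal.ofReal_tsum_of_nonneg (fun m => by positivity) hsum]
      exact ENNReal.ofReal_ne_top)
  filter_upwards [h1] with ω hω
  set S : ℝ := (∑' m : ℕ, ENNReal.ofReal (1 / ((m : ℝ) + 1) ^ 2) * XX P ξ γ (2 ^ m) ω).toReal with hS
  have hS0 : 0 ≤ S := ENNReal.toReal_nonneg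
  refine ⟨⌈S⌉₊, fun m z => ?_⟩
  have h2 := ENNReal.le_tsum
    (f := fun m : ℕ => ENNReal.ofReal (1 / ((m : ℝ) + 1) ^ 2) * XX P ξ γ (2 ^ m) ω) m
  beta_reduce at h2
  rw [← h.XX_eq, ← ENNReal.ofReal_mul (by positivity)] at h2
  have h3 := ENNReal.toReal_mono hω h2
  have hInn : 0 ≤ ∫ θ in (0 : ℝ)..(2 * Real.pi), HH P ξ γ (2 ^ m) ω θ :=
    intervalIntegral.integral_nonneg (by positivity) fun θ _ => HH_nonneg γ _ ω θ
  rw [ENNReal.toReal_ofReal (by positivity)] at h3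
  set I : ℝ := ∫ θ in (0 : ℝ)..(2 * Real.pi), HH P ξ γ (2 ^ m) ω θ with hI
  have hpos : (0 : ℝ) < ((m : ℝ) + 1) ^ 2 := by positivity
  have h3' : I / ((m : ℝ) + 1) ^ 2 ≤ S := by
    refine le_trans (le_of_eq ?_) h3
    ring
  have h4 : I ≤ S * ((m : ℝ) + 1) ^ 2 := by
    rw [div_le_iff₀ hpos] at h3'
    exact h3'
  have hK : S < Real.exp (⌈S⌉₊ : ℝ) := by
    have h5 := Real.add_one_le_exp ((⌈S⌉₊ : ℕ) : ℝ)
    have h6 := Nat.le_ceil S
    linarith
  have h7 : Real.exp (EE P ξ γ (2 ^ m) ω z) < Real.exp (ub (⌈S⌉₊ : ℝ) m) := by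
    have e1 : Real.exp (ub (⌈S⌉₊ : ℝ) m) =
        2 ^ m * ((m : ℝ) + 1) ^ 2 * Real.exp (⌈S⌉₊ : ℝ) := by
      unfold ub
      rw [Real.exp_add, Real.exp_add]
      congr 2
      · rw [Real.exp_nat_mul, Real.exp_log (by norm_num)]
      · rw [show (2 : ℝ) * Real.log ((m : ℝ) + 1) = ((2 : ℕ) : ℝ) * Real.log ((m : ℝ) + 1) by
          norm_num, Real.exp_nat_mul, Real.exp_log (by positivity)]
    rw [e1]
    calc Real.exp (EE P ξ γ (2 ^ m) ω z) ≤ 2 ^ m * I := exp_EE_le h γ m ω z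
      _ ≤ 2 ^ m * (S * ((m : ℝ) + 1) ^ 2) := by gcongr
      _ = 2 ^ m * ((m : ℝ) + 1) ^ 2 * S := by ring
      _ < 2 ^ m * ((m : ℝ) + 1) ^ 2 * Real.exp (⌈S⌉₊ : ℝ) := by gcongr
  exact Real.exp_lt_exp.mp h7

/-- the density on the barrier event -/
noncomputable def FB (P : Measure Ω) (ξ : ℕ → Ω → ℂ) (γ K : ℝ) (k : ℕ) (ω : Ω) (z : S1) : ℝ≥0∞ :=
  (HB P ξ γ K k ω).indicator (fun z => DD P ξ γ (2 ^ k) ω z) z

lemma measurable_FB (h : Hyp P ξ) (γ K : ℝ) (k : ℕ) :
    Measurable (fun q : Ω × S1 => FB P ξ γ K k q.1 q.2) := by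
  have e : (fun q : Ω × S1 => FB P ξ γ K k q.1 q.2) =
      (⋂ i ∈ Finset.range (k + 1), {q : Ω × S1 | EE P ξ γ (2 ^ i) q.1 q.2 < ub K i}).indicator
        (fun q => DD P ξ γ (2 ^ k) q.1 q.2) := by
    funext q
    by_cases hq : q.2 ∈ HB P ξ γ K k q.1
    · have hq' : q ∈ ⋂ i ∈ Finset.range (k + 1),
          {q : Ω × S1 | EE P ξ γ (2 ^ i) q.1 q.2 < ub K i} := by
        rw [mem_iInter₂]
        exact hq
      unfold FB
      rw [indicator_of_mem hq, indicator_of_mem hq']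
    · have hq' : q ∉ ⋂ i ∈ Finset.range (k + 1),
          {q : Ω × S1 | EE P ξ γ (2 ^ i) q.1 q.2 < ub K i} := by
        rw [mem_iInter₂]
        exact hq
      unfold FB
      rw [indicator_of_notMem hq, indicator_of_notMem hq']
  rw [e]
  refine (h.measurable_DD γ (2 ^ k)).indicator ?_
  apply Finset.measurableSet_biInter
  intro i _
  exact measurableSet_lt (h.measurable_EE' γ (2 ^ i)) measurable_const

lemma lintegral_FB (γ K : ℝ) (k : ℕ) (z : S1) :
    ∫⁻ ω, FB P ξ γ K k ω z ∂P = AZ P ξ γ K k z := by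
  unfold AZ
  apply lintegral_congr
  intro ω
  by_cases hω : z ∈ HB P ξ γ K k ω
  · have a1 : ω ∈ {ω | z ∈ HB P ξ γ K k ω} := hω
    unfold FB
    rw [indicator_of_mem a1, indicator_of_mem hω]
  · have a1 : ω ∉ {ω | z ∈ HB P ξ γ K k ω} := hω
    unfold FB
    rw [indicator_of_notMem a1, indicator_of_notMem hω]

lemma ae_liminf_FB (h : Hyp P ξ) (γ : ℝ) (hγ : 4 ≤ γ ^ 2) (hs : Summable (tl P ξ)) (K : ℝ)
    (σ δ : ℝ) (hσ : |σ| = 1) (hδ : 0 < δ) :
    ∀ᵐ ω ∂P, liminf (fun k => ∫⁻ z in JJ σ δ, FB P ξ γ K k ω z ∂arcLength) atTop = 0 := by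
  have := h.prob
  have hm : ∀ k, Measurable (fun ω => ∫⁻ z in JJ σ δ, FB P ξ γ K k ω z ∂arcLength) := fun k =>
    (measurable_FB h γ K k).lintegral_prod_right'
  have hT : Tendsto (fun k => ∫⁻ ω, ∫⁻ z in JJ σ δ, FB P ξ γ K k ω z ∂arcLength ∂P) atTop (𝓝 0) := by
    have e1 : ∀ k, ∫⁻ ω, ∫⁻ z in JJ σ δ, FB P ξ γ K k ω z ∂arcLength ∂P =
        ∫⁻ z in JJ σ δ, AZ P ξ γ K k z ∂arcLength := by
      intro k
      rw [lintegral_lintegral_swap (measurable_FB h γ K k).aemeasurable]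
      simp only [lintegral_FB]
    simp only [e1]
    have hz0 : ∫⁻ _z : S1 in JJ σ δ, (0 : ℝ≥0∞) ∂arcLength = 0 := by simp
    rw [← hz0]
    apply tendsto_lintegral_of_dominated_convergence
      (fun _ => ENNReal.ofReal (Real.exp (dd P ξ (2 * |γ|))))
    · intro k
      have h1 : Measurable (fun z => ∫⁻ ω, FB P ξ γ K k ω z ∂P) :=
        (measurable_FB h γ K k).lintegral_prod_left'
      simp only [lintegral_FB] at h1
      exact h1
    · intro k
      exact ae_of_all _ fun z => AZ_le h γ K k z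
    · rw [lintegral_const]
      exact ENNReal.mul_ne_top ENNReal.ofReal_ne_top (measure_ne_top _ _)
    · filter_upwards [ae_restrict_mem (measurableSet_JJ σ δ)] with z hz
      exact AZ_tendsto h γ hγ hs K σ δ hσ hδ z hz
  have h1 : ∫⁻ ω, liminf (fun k => ∫⁻ z in JJ σ δ, FB P ξ γ K k ω z ∂arcLength) atTop ∂P = 0 := by
    apply le_antisymm _ zero_le
    refine (lintegral_liminf_le hm).trans ?_
    exact hT.liminf_eq.le
  exact (lintegral_eq_zero_iff (Measurable.liminf hm)).mp h1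

lemma lintegral_DD_le (h : Hyp P ξ) (γ : ℝ) (n : ℕ) (z : S1) :
    ∫⁻ ω, DD P ξ γ n ω z ∂P ≤ ENNReal.ofReal (Real.exp (dd P ξ (2 * |γ|))) := by
  unfold DD
  simp only [EE_eq_ET]
  refine (block_upper h (2 * |γ|) γ (by linarith [abs_nonneg γ]) _ _ z).trans ?_
  apply ENNReal.ofReal_le_ofReal
  apply Real.exp_le_exp.mpr
  exact h.sum_dl_le _ _

lemma arcLength_RR : arcLength RR = 0 := by
  have : RR.Countable := RR_finite.countable
  rw [← biUnion_of_singleton RR]
  exact (measure_biUnion_null_iff this).mpr fun z _ => arcLength_singleton z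

/-- The limit measure does not charge the real points. -/
lemma ae_RR (h : Hyp P ξ) (γ : ℝ) (μ : ℕ → Ω → FiniteMeasure S1)
    (hμ : IsChaos P ξ γ μ) (μl : Ω → FiniteMeasure S1)
    (hlim : ∀ᵐ ω ∂P, Tendsto (fun n => μ n ω) atTop (𝓝 (μl ω))) :
    ∀ᵐ ω ∂P, (μl ω : Measure S1) RR = 0 := by
  have := h.prob
  set U : ℕ → Set S1 := fun j => {z : S1 | |(z : ℂ).im| < 1 / ((j : ℝ) + 1)} with hU
  have hUo : ∀ j, IsOpen (U j) := fun j =>
    isOpen_lt (continuous_abs.comp (Complex.continuous_im.comp continuous_subtype_val))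
      continuous_const
  have hUanti : Antitone U := by
    intro i j hij z hz
    have h1 : |(z : ℂ).im| < 1 / ((j : ℝ) + 1) := hz
    have h2 : 1 / ((j : ℝ) + 1) ≤ 1 / ((i : ℝ) + 1) := by
      apply one_div_le_one_div_of_le (by positivity)
      have : (i : ℝ) ≤ j := by exact_mod_cast hij
      linarith
    exact lt_of_lt_of_le h1 h2
  have hUint : ⋂ j, U j = RR := by
    ext z
    rw [mem_iInter]
    constructor
    · intro hz
      show (z : ℂ).im = 0
      by_contra him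
      obtain ⟨i, hi⟩ := exists_nat_one_div_lt (abs_pos.mpr him)
      have h1 : |(z : ℂ).im| < 1 / ((i : ℝ) + 1) := hz i
      linarith
    · intro hz j
      have him : (z : ℂ).im = 0 := hz
      show |(z : ℂ).im| < 1 / ((j : ℝ) + 1)
      rw [him, abs_zero]
      positivity
  have hUT : Tendsto (fun j => arcLength (U j)) atTop (𝓝 0) := by
    have h1 := tendsto_measure_iInter_atTop (μ := arcLength) (s := U)
      (fun j => (hUo j).measurableSet.nullMeasurableSet) hUanti ⟨0, measure_ne_top _ _⟩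
    rw [hUint, arcLength_RR] at h1
    exact h1
  set Y : Ω → ℝ≥0∞ := fun ω =>
    ⨅ j, liminf (fun n => ∫⁻ z in U j, DD P ξ γ n ω z ∂arcLength) atTop with hY
  have hm : ∀ j n, Measurable (fun ω => ∫⁻ z in U j, DD P ξ γ n ω z ∂arcLength) := fun j n =>
    (h.measurable_DD γ n).lintegral_prod_right'
  have hYm : Measurable Y := Measurable.iInf fun j => Measurable.liminf fun n => hm j n
  have hY0 : ∫⁻ ω, Y ω ∂P = 0 := by
    apply le_antisymm _ zero_le
    have hj : ∀ j, ∫⁻ ω, Y ω ∂P ≤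
        ENNReal.ofReal (Real.exp (dd P ξ (2 * |γ|))) * arcLength (U j) := by
      intro j
      refine (lintegral_mono fun ω => iInf_le _ j).trans ?_
      apply lintegral_liminf_le_const _ (hm j) _ 0
      intro n _
      exact first_moment (fun ω z => DD P ξ γ n ω z) (h.measurable_DD γ n) (U j)
        (hUo j).measurableSet _ (fun z _ => lintegral_DD_le h γ n z)
    have hT : Tendsto (fun j => ENNReal.ofReal (Real.exp (dd P ξ (2 * |γ|))) * arcLength (U j)) atTop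
        (𝓝 (ENNReal.ofReal (Real.exp (dd P ξ (2 * |γ|))) * 0)) :=
      ENNReal.Tendsto.const_mul hUT (Or.inr ENNReal.ofReal_ne_top)
    rw [mul_zero] at hT
    exact ge_of_tendsto' hT hj
  have hYae : ∀ᵐ ω ∂P, Y ω = 0 := (lintegral_eq_zero_iff hYm).mp hY0
  filter_upwards [hYae, h.ae_link γ μ hμ μl hlim] with ω g1 g2
  obtain ⟨C0, c, hC0, hc, hU0, hF⟩ := g2
  set C : ℝ≥0∞ := C0 + 1 with hCdef
  have hC : C ≠ ⊤ := ENNReal.add_ne_top.mpr ⟨hC0, by norm_num⟩
  have hCne : C ≠ 0 := by rw [hCdef]; positivity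
  apply le_antisymm _ zero_le
  have h5 : (μl ω : Measure S1) RR ≤ C * Y ω := by
    simp only [hY]
    rw [ENNReal.mul_iInf_of_ne hCne hC]
    apply le_iInf
    intro j
    have h6 : RR ⊆ U j := by rw [← hUint]; exact iInter_subset _ j
    refine (measure_mono h6).trans ((hU0 _ (hUo j)).trans ?_)
    exact mul_le_mul_left le_self_add _
  rw [g1, mul_zero] at h5
  exact h5

/-- **The critical and supercritical phases.** For `γ² ≥ 4` the limit measure is zero. -/
lemma ae_crit (h : Hyp P ξ) (γ : ℝ) (hγ : 4 ≤ γ ^ 2) (hs : Summable (tl P ξ))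
    (μ : ℕ → Ω → FiniteMeasure S1)
    (hμ : IsChaos P ξ γ μ) (μl : Ω → FiniteMeasure S1)
    (hlim : ∀ᵐ ω ∂P, Tendsto (fun n => μ n ω) atTop (𝓝 (μl ω))) :
    ∀ᵐ ω ∂P, μl ω = 0 := by
  have hδ : ∀ i : ℕ, (0 : ℝ) < 1 / ((i : ℝ) + 1) := fun i => by positivity
  have hall : ∀ᵐ ω ∂P, ∀ i : ℕ, ∀ s : Bool, ∀ K : ℕ,
      liminf (fun k => ∫⁻ z in JJ (if s then 1 else -1) (1 / ((i : ℝ) + 1)),
        FB P ξ γ K k ω z ∂arcLength) atTop = 0 := by
    rw [ae_all_iff]
    intro i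
    rw [ae_all_iff]
    intro s
    rw [ae_all_iff]
    intro K
    apply ae_liminf_FB h γ hγ hs K _ _ _ (hδ i)
    cases s <;> simp
  filter_upwards [hall, ae_barrier h γ, ae_RR h γ μ hμ μl hlim, h.ae_link γ μ hμ μl hlim] with
    ω g1 g2 g3 g4
  obtain ⟨K, hK⟩ := g2
  obtain ⟨C, c, hC, hc, hU, hF⟩ := g4
  have hJ : ∀ i : ℕ, ∀ s : Bool,
      (μl ω : Measure S1) (JJ (if s then 1 else -1) (1 / ((i : ℝ) + 1))) = 0 := by
    intro i s
    apply le_antisymm _ zero_le
    refine (hU _ (isOpen_JJ _ _)).trans ?_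
    have h1 : liminf (fun n => ∫⁻ z in JJ (if s then 1 else -1) (1 / ((i : ℝ) + 1)),
        DD P ξ γ n ω z ∂arcLength) atTop ≤ 0 := by
      refine (liminf_le_subseq _).trans ?_
      have e : ∀ k z, FB P ξ γ K k ω z = DD P ξ γ (2 ^ k) ω z := by
        intro k z
        unfold FB
        rw [indicator_of_mem]
        intro q _
        exact hK q z
      have h2 := g1 i s K
      simp only [e] at h2
      exact h2.le
    rw [le_antisymm h1 zero_le, mul_zero]
  have huniv : (μl ω : Measure S1) univ = 0 := by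
    have hsub : (univ : Set S1) ⊆ RR ∪ ⋃ i : ℕ, ⋃ s : Bool,
        JJ (if s then 1 else -1) (1 / ((i : ℝ) + 1)) := by
      intro z _
      by_cases hR : z ∈ RR
      · exact Or.inl hR
      · right
        have him : (z : ℂ).im ≠ 0 := hR
        obtain ⟨i, hi⟩ := exists_nat_one_div_lt (abs_pos.mpr him)
        rcases lt_or_gt_of_ne him with h5 | h5
        · refine mem_iUnion.mpr ⟨i, mem_iUnion.mpr ⟨false, ?_⟩⟩
          rw [abs_of_neg h5] at hi
          show 1 / ((i : ℝ) + 1) < (if false = true then 1 else -1) * (z : ℂ).im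
          simp only [Bool.false_eq_true, if_false]
          linarith
        · refine mem_iUnion.mpr ⟨i, mem_iUnion.mpr ⟨true, ?_⟩⟩
          rw [abs_of_pos h5] at hi
          show 1 / ((i : ℝ) + 1) < (if true = true then 1 else -1) * (z : ℂ).im
          simp only [if_true]
          linarith
    apply measure_mono_null hsub
    rw [measure_union_null_iff]
    exact ⟨g3, measure_iUnion_null fun i => measure_iUnion_null fun s => hJ i s⟩
  have g5 : (μl ω : Measure S1) = 0 := Measure.measure_univ_eq_zero.mp huniv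
  apply Subtype.ext
  exact g5

end Pool.Agent.H85.CH2
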