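import Pool.Agent.H85.CH2.Posit

/-!
The dimension of the limit measure in the whole subcritical phase.
-/

set_option autoImplicit false

open MeasureTheory ProbabilityTheory Filter Topology Set
open scoped ENNReal NNReal

namespace Pool.Agent.H85.CH2

open Pool.Agent.Results.MP_ab74d4_pr.ChaosConvergence
open Pool.Agent.Y977.CH

variable {Ω : Type*} {mΩ : MeasurableSpace Ω} {P : Measure Ω} {ξ : ℕ → Ω → ℂ}

lemma ae_upper' (h : Hyp P ξ) (γ : ℝ) (hγ : γ ^ 2 / 4 < 1) (ε : ℝ) (hε : 0 < ε) (hε1 : ε ≤ 1)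
    (μ : ℕ → Ω → FiniteMeasure S1)
    (hμ : IsChaos P ξ γ μ) (μl : Ω → FiniteMeasure S1)
    (hlim : ∀ᵐ ω ∂P, Tendsto (fun n => μ n ω) atTop (𝓝 (μl ω))) :
    ∀ᵐ ω ∂P, dimMeasure (μl ω : Measure S1) ≤ ENNReal.ofReal (1 - γ ^ 2 / 4 + 3 * ε) := by
  have hδ : ∀ i : ℕ, (0 : ℝ) < 1 / ((i : ℝ) + 1) := fun i => by positivity
  have habs : |(-ε)| ≤ 1 := by rw [abs_neg, abs_of_pos hε]; exact hε1
  have hall : ∀ᵐ ω ∂P, ∀ i : ℕ, ∀ s : Bool,
      ∑' m : ℕ, liminf (fun n => ∫⁻ z in JJ (if s then 1 else -1) (1 / ((i : ℝ) + 1)),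
      FF P ξ γ (-ε) ((γ ^ 2 / 4 + -ε) * (m * Real.log 2)) (2 ^ m) n ω z ∂arcLength) atTop ≠ ⊤ := by
    rw [ae_all_iff]
    intro i
    rw [ae_all_iff]
    intro s
    apply ae_bad' h γ hγ (-ε) (by linarith [hε] : (-ε) ≠ 0) habs _ _ _ (hδ i)
    cases s <;> simp
  filter_upwards [h.ae_link γ μ hμ μl hlim, hall, h.ae_XX γ ε hε] with ω h1 h2 h3
  obtain ⟨C, c, hC, hc, hU, hF⟩ := h1
  obtain ⟨K, hK, hX⟩ := h3
  set Am : ℕ → Set S1 := fun m =>
    {z : S1 | (γ ^ 2 / 4 + -ε) * (m * Real.log 2) ≤ EE P ξ γ (2 ^ m) ω z} with hAm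
  have hAmc : ∀ m, IsClosed (Am m) := fun m =>
    isClosed_le continuous_const (h.continuous_EE' γ (2 ^ m) ω)
  set A : Set S1 := (⋃ m0 : ℕ, ⋂ m, ⋂ (_ : m0 ≤ m), Am m) ∪ RR with hA
  have hAmeas : MeasurableSet A :=
    (MeasurableSet.iUnion fun m0 => MeasurableSet.iInter fun m => MeasurableSet.iInter fun _ =>
      (hAmc m).measurableSet).union measurableSet_RR
  have hpos : 0 ≤ 1 - γ ^ 2 / 4 + 3 * ε := by nlinarith
  have hdim : dimH A ≤ ENNReal.ofReal (1 - γ ^ 2 / 4 + 3 * ε) := by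
    rw [hA, dimH_union, dimH_iUnion, dimH_finite RR_finite]
    apply max_le _ zero_le
    apply iSup_le
    intro m0
    exact h.dim_inter γ ε hε hpos ω K hK hX m0
  have hnull : (μl ω : Measure S1) Aᶜ = 0 := by
    have hae : ∀ᵐ z ∂(μl ω : Measure S1), ∀ i : ℕ, ∀ s : Bool, ∀ᶠ m in atTop,
        z ∉ JJ (if s then 1 else -1) (1 / ((i : ℝ) + 1)) \ Am m := by
      rw [ae_all_iff]
      intro i
      rw [ae_all_iff]
      intro s
      apply ae_eventually_notMem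
      have hle : ∀ m, (μl ω : Measure S1) (JJ (if s then 1 else -1) (1 / ((i : ℝ) + 1)) \ Am m) ≤
          C * liminf (fun n => ∫⁻ z in JJ (if s then 1 else -1) (1 / ((i : ℝ) + 1)),
          FF P ξ γ (-ε) ((γ ^ 2 / 4 + -ε) * (m * Real.log 2)) (2 ^ m) n ω z ∂arcLength) atTop := by
        intro m
        have hsub : JJ (if s then 1 else -1) (1 / ((i : ℝ) + 1)) \ Am m ⊆
            JJ (if s then 1 else -1) (1 / ((i : ℝ) + 1)) ∩
              LS P ξ γ (-ε) ((γ ^ 2 / 4 + -ε) * (m * Real.log 2)) (2 ^ m) ω := by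
          intro z hz
          refine ⟨hz.1, ?_⟩
          have h4 : ¬ ((γ ^ 2 / 4 + -ε) * (m * Real.log 2) ≤ EE P ξ γ (2 ^ m) ω z) := hz.2
          show 0 < -ε * (EE P ξ γ (2 ^ m) ω z - (γ ^ 2 / 4 + -ε) * (m * Real.log 2))
          push Not at h4
          nlinarith
        refine (measure_mono hsub).trans ((hU _ ((isOpen_JJ _ _).inter (h.isOpen_LS γ _ _ _ ω))).trans ?_)
        simp only [h.setLIntegral_LS γ _ _ _ _ ω _ (measurableSet_JJ _ _)]
        exact le_rfl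
      refine ne_top_of_le_ne_top ?_ (ENNReal.tsum_le_tsum hle)
      rw [ENNReal.tsum_mul_left]
      exact ENNReal.mul_ne_top hC (h2 i s)
    have hsub : ∀ᵐ z ∂(μl ω : Measure S1), z ∈ A := by
      filter_upwards [hae] with z hz
      by_cases hR : z ∈ RR
      · exact Or.inr hR
      · left
        have him : (z : ℂ).im ≠ 0 := hR
        obtain ⟨i, hi⟩ := exists_nat_one_div_lt (abs_pos.mpr him)
        have hJ : ∃ s : Bool, z ∈ JJ (if s then 1 else -1) (1 / ((i : ℝ) + 1)) := by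
          rcases lt_or_gt_of_ne him with h5 | h5
          · refine ⟨false, ?_⟩
            rw [abs_of_neg h5] at hi
            show 1 / ((i : ℝ) + 1) < (if false = true then 1 else -1) * (z : ℂ).im
            simp only [Bool.false_eq_true, if_false]
            linarith
          · refine ⟨true, ?_⟩
            rw [abs_of_pos h5] at hi
            show 1 / ((i : ℝ) + 1) < (if true = true then 1 else -1) * (z : ℂ).im
            simp only [if_true]
            linarith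
        obtain ⟨s, hs⟩ := hJ
        obtain ⟨m0, hm0⟩ := eventually_atTop.mp (hz i s)
        refine mem_iUnion.mpr ⟨m0, mem_iInter.mpr fun m => mem_iInter.mpr fun hm => ?_⟩
        by_contra hcon
        exact hm0 m hm ⟨hs, hcon⟩
    rw [ae_iff] at hsub
    exact hsub
  unfold dimMeasure
  exact (iInf₂_le A ⟨hAmeas, hnull⟩).trans hdim

/-- Exact dimension, given that the limit charges a region away from the real points. -/
lemma ae_dim' (h : Hyp P ξ) (γ : ℝ) (hγ : γ ^ 2 / 4 < 1) (σ δ : ℝ) (hσ : |σ| = 1) (hδ : 0 < δ)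
    (μ : ℕ → Ω → FiniteMeasure S1)
    (hμ : IsChaos P ξ γ μ) (μl : Ω → FiniteMeasure S1)
    (hlim : ∀ᵐ ω ∂P, Tendsto (fun n => μ n ω) atTop (𝓝 (μl ω)))
    (hpos : ∀ᵐ ω ∂P, (μl ω : Measure S1) (JJ σ δ) ≠ 0) :
    ∀ᵐ ω ∂P, dimMeasure (μl ω : Measure S1) = ENNReal.ofReal (1 - γ ^ 2 / 4) := by
  set κ : ℝ := 1 - γ ^ 2 / 4 with hκ
  have hκ0 : 0 < κ := by rw [hκ]; linarith
  have hκ1 : κ ≤ 1 := by
    have := sq_nonneg γ
    rw [hκ]; linarith
  have hε : ∀ i : ℕ, (0 : ℝ) < κ * (1 / ((i : ℝ) + 8)) := fun i => by positivity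
  have hε1 : ∀ i : ℕ, κ * (1 / ((i : ℝ) + 8)) ≤ κ * (1 / 8) := fun i => by
    apply mul_le_mul_of_nonneg_left _ hκ0.le
    apply one_div_le_one_div_of_le (by norm_num)
    have : (0 : ℝ) ≤ i := Nat.cast_nonneg i
    linarith
  have h1 : ∀ᵐ ω ∂P, ∀ i : ℕ, (μl ω : Measure S1) (JJ σ δ) ≠ 0 → ∀ A : Set S1, MeasurableSet A →
      (μl ω : Measure S1) Aᶜ = 0 →
        ENNReal.ofReal (1 - γ ^ 2 / 4 - 2 * (κ * (1 / ((i : ℝ) + 8)))) ≤ dimH A := by
    rw [ae_all_iff]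
    intro i
    apply ae_lower' h γ _ (hε i) (by linarith [hε1 i]) _ σ δ hσ hδ μ hμ μl hlim
    have h9 := hε1 i
    have h10 : κ = 1 - γ ^ 2 / 4 := hκ
    rw [← h10]
    linarith
  have h2 : ∀ᵐ ω ∂P, ∀ i : ℕ, dimMeasure (μl ω : Measure S1) ≤
      ENNReal.ofReal (1 - γ ^ 2 / 4 + 3 * (κ * (1 / ((i : ℝ) + 8)))) := by
    rw [ae_all_iff]
    intro i
    exact ae_upper' h γ hγ _ (hε i) (by linarith [hε1 i]) μ hμ μl hlim
  have hT : Tendsto (fun i : ℕ => κ * (1 / ((i : ℝ) + 8))) atTop (𝓝 0) := by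
    have h3 : Tendsto (fun i : ℕ => (i : ℝ) + 8) atTop atTop :=
      tendsto_atTop_add_const_right _ _ tendsto_natCast_atTop_atTop
    have h4 : Tendsto (fun i : ℕ => 1 / ((i : ℝ) + 8)) atTop (𝓝 0) := by
      refine h3.inv_tendsto_atTop.congr fun i => ?_
      simp [one_div]
    have h5 := h4.const_mul κ
    rwa [mul_zero] at h5
  filter_upwards [h1, h2, hpos] with ω g1 g2 g3
  apply le_antisymm
  · have hT2 : Tendsto (fun i : ℕ => ENNReal.ofReal (1 - γ ^ 2 / 4 +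
        3 * (κ * (1 / ((i : ℝ) + 8))))) atTop (𝓝 (ENNReal.ofReal (1 - γ ^ 2 / 4 + 3 * 0))) :=
      ENNReal.tendsto_ofReal ((hT.const_mul 3).const_add _)
    rw [mul_zero, add_zero] at hT2
    exact ge_of_tendsto' hT2 g2
  · unfold dimMeasure
    apply le_iInf₂
    intro A hA
    have hT2 : Tendsto (fun i : ℕ => ENNReal.ofReal (1 - γ ^ 2 / 4 -
        2 * (κ * (1 / ((i : ℝ) + 8))))) atTop (𝓝 (ENNReal.ofReal (1 - γ ^ 2 / 4 - 2 * 0))) :=
      ENNReal.tendsto_ofReal ((hT.const_mul 2).const_sub _)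
    rw [mul_zero, sub_zero] at hT2
    exact le_of_tendsto' hT2 fun i => g1 i g3 A hA.1 hA.2

end Pool.Agent.H85.CH2
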