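import Pool.Agent.H85.CH2.Good

/-!
Almost sure energy estimates for the good part of the limit measure, and the lower bound for the
dimension in the whole subcritical phase.
-/

set_option autoImplicit false

open MeasureTheory ProbabilityTheory Filter Topology Set
open scoped ENNReal NNReal

namespace Pool.Agent.H85.CH2

open Pool.Agent.Results.MP_ab74d4_pr.ChaosConvergence
open Pool.Agent.Y977.CH

variable {Ω : Type*} {mΩ : MeasurableSpace Ω} {P : Measure Ω} {ξ : ℕ → Ω → ℂ}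

lemma liminf_le_subseq (f : ℕ → ℝ≥0∞) :
    liminf f atTop ≤ liminf (fun k => f (2 ^ k)) atTop := by
  have hT : Tendsto (fun k : ℕ => 2 ^ k) atTop atTop :=
    tendsto_pow_atTop_atTop_of_one_lt (by norm_num)
  have e : liminf (fun k => f (2 ^ k)) atTop = liminf f (map (fun k : ℕ => 2 ^ k) atTop) := rfl
  rw [e]
  exact liminf_le_liminf_of_le hT

lemma min_add_sq (x y K : ℝ≥0∞) : (min (x + y) K) ^ 2 ≤ x ^ 2 + 2 * K * y := by
  rcases le_total (x + y) K with h | h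
  · rw [min_eq_left h]
    have hx : x ≤ K := le_self_add.trans h
    calc (x + y) ^ 2 = x ^ 2 + (x * y + y * (x + y)) := by ring
      _ ≤ x ^ 2 + (K * y + y * K) := by gcongr
      _ = x ^ 2 + 2 * K * y := by ring
  · rw [min_eq_right h]
    rcases le_total x K with h2 | h2
    · calc K ^ 2 = K * K := by ring
        _ ≤ K * (x + y) := by gcongr
        _ = x * K + K * y := by ring
        _ ≤ x * (x + y) + K * y := by gcongr
        _ = x ^ 2 + (x * y + K * y) := by ring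
        _ ≤ x ^ 2 + (K * y + K * y) := by gcongr
        _ = _ := by ring
    · calc K ^ 2 ≤ x ^ 2 := by gcongr
        _ ≤ _ := le_self_add

/-- Second moment of a decreasing limit of lower limits. -/
lemma inf_sq (V R : ℕ → ℕ → Ω → ℝ≥0∞)
    (hV : ∀ N k, Measurable (V N k)) (hR : ∀ N k, Measurable (R N k)) (a : ℝ≥0∞) (r : ℕ → ℝ≥0∞)
    (hr : Tendsto r atTop (𝓝 0)) (m : ℕ)
    (h1 : ∀ k, m ≤ k → ∫⁻ ω, (V k k ω) ^ 2 ∂P ≤ a)
    (h2 : ∀ N k ω, m ≤ N → N ≤ k → V N k ω ≤ V k k ω + R N k ω)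
    (h3 : ∀ N k, m ≤ N → N ≤ k → ∫⁻ ω, R N k ω ∂P ≤ r N) :
    ∫⁻ ω, (⨅ N, liminf (fun k => V (m + N) k ω) atTop) ^ 2 ∂P ≤ a := by
  set Y : Ω → ℝ≥0∞ := fun ω => ⨅ N, liminf (fun k => V (m + N) k ω) atTop with hY
  have hYm : Measurable Y := Measurable.iInf fun N => Measurable.liminf fun k => hV (m + N) k
  have step1 : ∀ K : ℕ, ∫⁻ ω, (min (Y ω) K) ^ 2 ∂P ≤ a := by
    intro K
    have hN : ∀ N, ∫⁻ ω, (min (Y ω) K) ^ 2 ∂P ≤ a + 2 * K * r (m + N) := by
      intro N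
      have hpt : ∀ ω, (min (Y ω) K) ^ 2 ≤ liminf (fun k => (min (V (m + N) k ω) K) ^ 2) atTop := by
        intro ω
        have hmono : Monotone (fun x : ℝ≥0∞ => (min x (K : ℝ≥0∞)) ^ 2) := by
          intro x y hxy
          show (min x (K : ℝ≥0∞)) ^ 2 ≤ (min y (K : ℝ≥0∞)) ^ 2
          gcongr
        have hcont : Continuous (fun x : ℝ≥0∞ => (min x (K : ℝ≥0∞)) ^ 2) :=
          (ENNReal.continuous_pow 2).comp (continuous_id.min continuous_const)
        have h4 : (min (liminf (fun k => V (m + N) k ω) atTop) (K : ℝ≥0∞)) ^ 2 =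
            liminf (fun k => (min (V (m + N) k ω) (K : ℝ≥0∞)) ^ 2) atTop :=
          hmono.map_liminf_of_continuousAt (fun k => V (m + N) k ω) hcont.continuousAt
        have h5 : (min (Y ω) K) ^ 2 ≤ (min (liminf (fun k => V (m + N) k ω) atTop) K) ^ 2 := by
          gcongr
          exact iInf_le _ N
        exact h5.trans h4.le
      refine (lintegral_mono hpt).trans ?_
      apply lintegral_liminf_le_const _ (fun k => ((hV (m + N) k).min measurable_const).pow_const 2)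
        _ (m + N)
      intro k hk
      calc ∫⁻ ω, (min (V (m + N) k ω) K) ^ 2 ∂P
          ≤ ∫⁻ ω, ((V k k ω) ^ 2 + 2 * K * R (m + N) k ω) ∂P := by
            apply lintegral_mono
            intro ω
            refine le_trans ?_ (min_add_sq _ _ _)
            show (min (V (m + N) k ω) (K : ℝ≥0∞)) ^ 2 ≤
              (min (V k k ω + R (m + N) k ω) (K : ℝ≥0∞)) ^ 2
            gcongr
            exact h2 _ _ _ (Nat.le_add_right _ _) hk
        _ = ∫⁻ ω, (V k k ω) ^ 2 ∂P + 2 * K * ∫⁻ ω, R (m + N) k ω ∂P := by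
            rw [lintegral_add_left ((hV k k).pow_const 2), lintegral_const_mul _ (hR _ _)]
        _ ≤ a + 2 * K * r (m + N) := by
            gcongr
            · exact h1 k (le_trans (Nat.le_add_right _ _) hk)
            · exact h3 _ _ (Nat.le_add_right _ _) hk
    have hT0 : Tendsto (fun N => r (m + N)) atTop (𝓝 0) := by
      have := (tendsto_add_atTop_iff_nat m).mpr hr
      refine this.congr fun N => ?_
      rw [add_comm]
    have hT : Tendsto (fun N => a + 2 * (K : ℝ≥0∞) * r (m + N)) atTop (𝓝 (a + 2 * K * 0)) :=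
      (ENNReal.Tendsto.const_mul hT0 (Or.inr (ENNReal.mul_ne_top (by norm_num)
        (ENNReal.natCast_ne_top K)))).const_add a
    rw [mul_zero, add_zero] at hT
    exact ge_of_tendsto' hT hN
  have hpt : ∀ ω, (Y ω) ^ 2 = liminf (fun K : ℕ => (min (Y ω) K) ^ 2) atTop := by
    intro ω
    have hT : Tendsto (fun K : ℕ => (min (Y ω) (K : ℝ≥0∞)) ^ 2) atTop (𝓝 ((min (Y ω) ⊤) ^ 2)) :=
      ((ENNReal.continuous_pow 2).tendsto _).comp
        (tendsto_const_nhds.min ENNReal.tendsto_nat_nhds_top)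
    rw [min_top_right] at hT
    exact hT.liminf_eq.symm
  calc ∫⁻ ω, (Y ω) ^ 2 ∂P = ∫⁻ ω, liminf (fun K : ℕ => (min (Y ω) K) ^ 2) atTop ∂P :=
        lintegral_congr hpt
    _ ≤ a := lintegral_liminf_le_const _ (fun K => (hYm.min measurable_const).pow_const 2) a 0
        (fun K _ => step1 K)

lemma geo_tail (r : ℝ) (hr0 : 0 < r) (hr1 : r < 1) (N k : ℕ) :
    ∑ i ∈ Finset.Ioc N k, r ^ i ≤ r ^ N / (1 - r) := by
  have h1r : 0 < 1 - r := by linarith
  rcases le_or_gt N k with hNk | hNk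
  · have h1 : ∑ i ∈ Finset.Ioc N k, r ^ i = (r ^ (N + 1) - r ^ (k + 1)) / (1 - r) := by
      induction k, hNk using Nat.le_induction with
      | base => simp
      | succ k hk ih =>
        rw [Finset.sum_Ioc_succ_top hk, ih]
        field_simp
        ring
    rw [h1]
    gcongr
    have h2 : r ^ (N + 1) ≤ r ^ N := by
      rw [pow_succ]
      exact mul_le_of_le_one_right (by positivity) hr1.le
    have h3 : 0 < r ^ (k + 1) := by positivity
    linarith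
  · rw [Finset.Ioc_eq_empty (by omega), Finset.sum_empty]
    positivity

/-- The upper bound for the mass of the good points of the ball. -/
noncomputable def WW (P : Measure Ω) (ξ : ℕ → Ω → ℂ) (γ c : ℝ) (m : ℕ) (B : Set S1) (ω : Ω) :
    ℝ≥0∞ :=
  ⨅ N : ℕ, liminf (fun k => ∫⁻ z in B, FG P ξ γ c m (m + N) (2 ^ k) ω z ∂arcLength) atTop

lemma measurable_WW (h : Hyp P ξ) (γ c : ℝ) (m : ℕ) (B : Set S1) :
    Measurable (WW P ξ γ c m B) :=
  Measurable.iInf fun _ => Measurable.liminf fun _ => measurable_int_FG h γ c m _ _ B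

/-- First moment of the mass of the points which are atypical at some level above `N`. -/
lemma tail_bad (h : Hyp P ξ) (γ : ℝ) (hγ : γ ^ 2 / 4 < 1) (t : ℝ) (ht0 : 0 < t) (ht : t ≤ 1)
    (σ δ : ℝ) (hσ : |σ| = 1) (hδ : 0 < δ) :
    ∃ r : ℕ → ℝ≥0∞, Tendsto r atTop (𝓝 0) ∧ ∀ N k : ℕ, ∫⁻ ω, ∑ i ∈ Finset.Ioc N k,
      ∫⁻ z in JJ σ δ, FF P ξ γ t ((γ ^ 2 / 4 + t) * (i * Real.log 2)) (2 ^ i) (2 ^ k) ω z
        ∂arcLength ∂P ≤ r N := by
  obtain ⟨C, r, hC, hr0, hr1, hb⟩ := first_geo h γ hγ t ht0.ne' (by rw [abs_of_pos ht0]; exact ht)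
    σ δ hσ hδ
  have h1r : 0 < 1 - r := by linarith
  refine ⟨fun N => ENNReal.ofReal (C * (r ^ N / (1 - r))) * arcLength univ, ?_, fun N k => ?_⟩
  · have h1 : Tendsto (fun N : ℕ => C * (r ^ N / (1 - r))) atTop (𝓝 (C * (0 / (1 - r)))) :=
      ((tendsto_pow_atTop_nhds_zero_of_lt_one hr0.le hr1).div_const _).const_mul C
    rw [zero_div, mul_zero] at h1
    have h2 := ENNReal.tendsto_ofReal h1
    rw [ENNReal.ofReal_zero] at h2
    have h3 := ENNReal.Tendsto.mul_const h2 (b := arcLength univ) (Or.inr (measure_ne_top _ _))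
    rw [zero_mul] at h3
    exact h3
  · rw [lintegral_finsetSum _ (fun i _ => h.measurable_int_FF γ t _ _ _ _)]
    calc ∑ i ∈ Finset.Ioc N k, ∫⁻ ω, ∫⁻ z in JJ σ δ,
          FF P ξ γ t ((γ ^ 2 / 4 + t) * (i * Real.log 2)) (2 ^ i) (2 ^ k) ω z ∂arcLength ∂P
        ≤ ∑ i ∈ Finset.Ioc N k, ENNReal.ofReal (C * r ^ i) * arcLength univ := by
          apply Finset.sum_le_sum
          intro i hi
          exact hb i (2 ^ k) (Nat.pow_le_pow_right (by norm_num) (Finset.mem_Ioc.mp hi).2)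
      _ = ENNReal.ofReal (C * ∑ i ∈ Finset.Ioc N k, r ^ i) * arcLength univ := by
          rw [← Finset.sum_mul, ← ENNReal.ofReal_sum_of_nonneg (fun i _ => by positivity),
            Finset.mul_sum]
      _ ≤ ENNReal.ofReal (C * (r ^ N / (1 - r))) * arcLength univ := by
          gcongr
          exact geo_tail r hr0 hr1 N k

lemma WW_sq (h : Hyp P ξ) (γ : ℝ) (ε : ℝ) (hε : 0 < ε) (hε1 : ε ≤ 1)
    (hc1 : γ ^ 2 / 4 + ε < 1) (σ δ : ℝ) (hσ : |σ| = 1) (hδ : 0 < δ) (m : ℕ)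
    (B : Set S1) (hB : MeasurableSet B) (hBJ : B ⊆ JJ σ δ)
    (ρ : ℝ) (hρ : 2 ≤ 2 ^ m * ρ) (hd : ∀ z ∈ B, ∀ w ∈ B, dist z w < ρ) :
    ∫⁻ ω, (WW P ξ γ (γ ^ 2 / 4 + ε) m B ω) ^ 2 ∂P ≤
      ENNReal.ofReal (Real.exp (dd P ξ (2 * |γ|) + γ ^ 2 / 2 * (2 + 1 / δ) +
        bar (γ ^ 2 / 4 + ε) m)) *
        ENNReal.ofReal (10 * ρ / (1 - 2 ^ (γ ^ 2 / 4 + ε - 1))) * arcLength B := by
  have := h.prob
  obtain ⟨r, hr, hrb⟩ := tail_bad h γ (by linarith) ε hε hε1 σ δ hσ hδ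
  unfold WW
  apply inf_sq (fun N k ω => ∫⁻ z in B, FG P ξ γ (γ ^ 2 / 4 + ε) m N (2 ^ k) ω z ∂arcLength)
    (fun N k ω => ∑ i ∈ Finset.Ioc N k, ∫⁻ z in JJ σ δ,
      FF P ξ γ ε ((γ ^ 2 / 4 + ε) * (i * Real.log 2)) (2 ^ i) (2 ^ k) ω z ∂arcLength)
    (fun N k => measurable_int_FG h γ _ m N _ B)
    (fun N k => Finset.measurable_sum _ fun i _ => h.measurable_int_FF γ ε _ _ _ _)
    _ r hr m
  · intro k hk
    exact sq_bound h γ _ (by positivity) hc1 m k hk σ δ hσ hδ B hB hBJ ρ hρ hd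
  · intro N k ω _ _
    have hFFm : ∀ i : ℕ, Measurable (fun z : S1 =>
        FF P ξ γ ε ((γ ^ 2 / 4 + ε) * (i * Real.log 2)) (2 ^ i) (2 ^ k) ω z) := by
      intro i
      have e : Measurable (fun z : S1 => ((ω, z) : Ω × S1)) := measurable_const.prodMk measurable_id
      have e2 := (h.measurable_FF γ ε ((γ ^ 2 / 4 + ε) * (i * Real.log 2)) (2 ^ i) (2 ^ k)).comp e
      exact e2
    have hFGm : Measurable (fun z : S1 => FG P ξ γ (γ ^ 2 / 4 + ε) m k (2 ^ k) ω z) := by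
      have e : Measurable (fun z : S1 => ((ω, z) : Ω × S1)) := measurable_const.prodMk measurable_id
      have e2 := (measurable_FG h γ (γ ^ 2 / 4 + ε) m k (2 ^ k)).comp e
      exact e2
    calc ∫⁻ z in B, FG P ξ γ (γ ^ 2 / 4 + ε) m N (2 ^ k) ω z ∂arcLength
        ≤ ∫⁻ z in B, (FG P ξ γ (γ ^ 2 / 4 + ε) m k (2 ^ k) ω z + ∑ i ∈ Finset.Ioc N k,
          FF P ξ γ ε ((γ ^ 2 / 4 + ε) * (i * Real.log 2)) (2 ^ i) (2 ^ k) ω z) ∂arcLength :=
          lintegral_mono fun z => FG_split γ ε hε m N k (2 ^ k) ω z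
      _ = ∫⁻ z in B, FG P ξ γ (γ ^ 2 / 4 + ε) m k (2 ^ k) ω z ∂arcLength +
          ∑ i ∈ Finset.Ioc N k, ∫⁻ z in B,
          FF P ξ γ ε ((γ ^ 2 / 4 + ε) * (i * Real.log 2)) (2 ^ i) (2 ^ k) ω z ∂arcLength := by
          rw [lintegral_add_left hFGm, lintegral_finsetSum _ (fun i _ => hFFm i)]
      _ ≤ _ := by
          gcongr
  · intro N k _ _
    exact hrb N k

/-- (2): summability of the restricted energies. -/
lemma ae_energy' (h : Hyp P ξ) (γ : ℝ) (ε : ℝ) (hε : 0 < ε) (hε1 : ε ≤ 1)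
    (hc1 : γ ^ 2 / 4 + ε < 1) (σ δ : ℝ) (hσ : |σ| = 1) (hδ : 0 < δ) :
    ∀ᵐ ω ∂P, ∑' m : ℕ, ENNReal.ofReal ((2 ^ (1 - γ ^ 2 / 4 - 2 * ε)) ^ m) *
      ∑ j ∈ Finset.range (2 ^ m), (WW P ξ γ (γ ^ 2 / 4 + ε) m (bb m j ∩ JJ σ δ) ω) ^ 2 ≠ ⊤ := by
  have hmeas : ∀ (m j : ℕ), Measurable (fun ω =>
      (WW P ξ γ (γ ^ 2 / 4 + ε) m (bb m j ∩ JJ σ δ) ω) ^ 2) :=
    fun m j => (measurable_WW h γ _ m _).pow_const 2
  have hq1 : (2 : ℝ) ^ (γ ^ 2 / 4 + ε - 1) < 1 :=
    Real.rpow_lt_one_of_one_lt_of_neg (by norm_num) (by linarith)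
  set C : ℝ := 20000 * Real.exp (dd P ξ (2 * |γ|) + γ ^ 2 / 2 * (2 + 1 / δ)) /
        (1 - 2 ^ (γ ^ 2 / 4 + ε - 1)) with hC
  have hden : 0 < 1 - (2 : ℝ) ^ (γ ^ 2 / 4 + ε - 1) := by linarith
  have hCpos : 0 < C := by
    rw [hC]
    exact div_pos (by positivity) hden
  have hterm : ∀ (m j : ℕ), ∫⁻ ω, (WW P ξ γ (γ ^ 2 / 4 + ε) m (bb m j ∩ JJ σ δ) ω) ^ 2 ∂P
      ≤ ENNReal.ofReal (C * Real.exp (bar (γ ^ 2 / 4 + ε) m) / (2 ^ m) ^ 2) := by
    intro m j
    have hp : (0 : ℝ) < 2 ^ m := by positivity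
    refine (WW_sq h γ ε hε hε1 hc1 σ δ hσ hδ m (bb m j ∩ JJ σ δ)
      ((isOpen_bb m j).measurableSet.inter (measurableSet_JJ σ δ)) inter_subset_right
      (20 / 2 ^ m) ?_ ?_).trans ?_
    · rw [mul_div_cancel₀ _ hp.ne']; norm_num
    · intro z hz w hw
      have h2 := Metric.mem_ball.mp hz.1
      have h3 := Metric.mem_ball.mp hw.1
      calc dist z w ≤ dist z (pt (2 ^ m) j) + dist w (pt (2 ^ m) j) := dist_triangle_right _ _ _
        _ < 10 / 2 ^ m + 10 / 2 ^ m := by linarith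
        _ = 20 / 2 ^ m := by ring
    · have hBle : arcLength (bb m j ∩ JJ σ δ) ≤ ENNReal.ofReal (10 * (10 / 2 ^ m)) :=
        (measure_mono inter_subset_left).trans (arcLength_ball_le _ _ (by positivity))
      refine (mul_le_mul_right hBle _).trans ?_
      rw [← ENNReal.ofReal_mul (by positivity), ← ENNReal.ofReal_mul (by positivity)]
      apply ENNReal.ofReal_le_ofReal
      apply le_of_eq
      rw [Real.exp_add (dd P ξ (2 * |γ|) + γ ^ 2 / 2 * (2 + 1 / δ)), hC]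
      field_simp
      ring
  apply ae_tsum_ne_top
  · intro m
    exact (Finset.measurable_sum _ fun j _ => hmeas m j).const_mul _
  · have hle : ∀ m : ℕ, ∫⁻ ω, ENNReal.ofReal ((2 ^ (1 - γ ^ 2 / 4 - 2 * ε)) ^ m) *
      ∑ j ∈ Finset.range (2 ^ m), (WW P ξ γ (γ ^ 2 / 4 + ε) m (bb m j ∩ JJ σ δ) ω) ^ 2 ∂P
        ≤ ENNReal.ofReal (C * Real.exp 1 * (2 ^ (-ε)) ^ m) := by
      intro m
      rw [lintegral_const_mul' _ _ ENNReal.ofReal_ne_top,
        lintegral_finsetSum _ (fun j _ => hmeas m j)]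
      calc ENNReal.ofReal ((2 ^ (1 - γ ^ 2 / 4 - 2 * ε)) ^ m) * _
          ≤ ENNReal.ofReal ((2 ^ (1 - γ ^ 2 / 4 - 2 * ε)) ^ m) * ∑ _j ∈ Finset.range (2 ^ m),
            ENNReal.ofReal (C * Real.exp (bar (γ ^ 2 / 4 + ε) m) / (2 ^ m) ^ 2) := by
            apply mul_le_mul_right
            exact Finset.sum_le_sum fun j _ => hterm m j
        _ = ENNReal.ofReal (C * Real.exp 1 * (2 ^ (-ε)) ^ m) := by
            rw [Finset.sum_const, Finset.card_range, nsmul_eq_mul, ← ENNReal.ofReal_natCast,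
              ← ENNReal.ofReal_mul (by positivity), ← ENNReal.ofReal_mul (by positivity)]
            congr 1
            have e1 : Real.exp (bar (γ ^ 2 / 4 + ε) m) =
                ((2 : ℝ) ^ (γ ^ 2 / 4 + ε)) ^ m * Real.exp 1 := by
              unfold bar
              rw [Real.exp_add, Real.rpow_def_of_pos (by norm_num), ← Real.exp_nat_mul]
              congr 2
              ring
            have e2 : ((2 : ℝ) ^ (-ε)) ^ m = (2 ^ (1 - γ ^ 2 / 4 - 2 * ε)) ^ m *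
                (2 ^ (γ ^ 2 / 4 + ε)) ^ m / 2 ^ m := by
              rw [← mul_pow, ← div_pow, ← Real.rpow_add (by norm_num)]
              congr 1
              rw [show (1 - γ ^ 2 / 4 - 2 * ε + (γ ^ 2 / 4 + ε) : ℝ) = -ε + 1 by ring,
                Real.rpow_add (by norm_num), Real.rpow_one]
              field_simp
            rw [e1, e2]
            push_cast
            field_simp
    refine ne_top_of_le_ne_top ?_ (ENNReal.tsum_le_tsum hle)
    rw [← ENNReal.ofReal_tsum_of_nonneg (fun m => by positivity)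
      ((summable_geometric_of_lt_one (by positivity)
        (Real.rpow_lt_one_of_one_lt_of_neg (by norm_num) (by linarith))).mul_left _)]
    exact ENNReal.ofReal_ne_top

/-- (1): summability of the masses of atypical points. -/
lemma ae_bad' (h : Hyp P ξ) (γ : ℝ) (hγ : γ ^ 2 / 4 < 1) (t : ℝ) (ht0 : t ≠ 0) (ht : |t| ≤ 1)
    (σ δ : ℝ) (hσ : |σ| = 1) (hδ : 0 < δ) :
    ∀ᵐ ω ∂P, ∑' m : ℕ, liminf (fun n => ∫⁻ z in JJ σ δ,
      FF P ξ γ t ((γ ^ 2 / 4 + t) * (m * Real.log 2)) (2 ^ m) n ω z ∂arcLength) atTop ≠ ⊤ := by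
  obtain ⟨C, r, hC, hr0, hr1, hb⟩ := first_geo h γ hγ t ht0 ht σ δ hσ hδ
  apply ae_tsum_ne_top
  · intro m
    exact Measurable.liminf fun n => h.measurable_int_FF γ t _ _ n _
  · have hle : ∀ m : ℕ, ∫⁻ ω, liminf (fun n => ∫⁻ z in JJ σ δ,
        FF P ξ γ t ((γ ^ 2 / 4 + t) * (m * Real.log 2)) (2 ^ m) n ω z ∂arcLength) atTop ∂P
        ≤ ENNReal.ofReal (C * r ^ m) * arcLength univ := by
      intro m
      apply lintegral_liminf_le_const _ (fun n => h.measurable_int_FF γ t _ _ n _) _ (2 ^ m)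
      intro n hn
      exact hb m n hn
    refine ne_top_of_le_ne_top ?_ (ENNReal.tsum_le_tsum hle)
    rw [ENNReal.tsum_mul_right]
    apply ENNReal.mul_ne_top _ (measure_ne_top _ _)
    rw [← ENNReal.ofReal_tsum_of_nonneg (fun m => by positivity)
      ((summable_geometric_of_lt_one hr0.le hr1).mul_left _)]
    exact ENNReal.ofReal_ne_top

lemma ae_lower' (h : Hyp P ξ) (γ : ℝ) (ε : ℝ) (hε : 0 < ε) (hε1 : ε ≤ 1)
    (hpos : 0 < 1 - γ ^ 2 / 4 - 2 * ε) (σ δ : ℝ) (hσ : |σ| = 1) (hδ : 0 < δ)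
    (μ : ℕ → Ω → FiniteMeasure S1)
    (hμ : IsChaos P ξ γ μ) (μl : Ω → FiniteMeasure S1)
    (hlim : ∀ᵐ ω ∂P, Tendsto (fun n => μ n ω) atTop (𝓝 (μl ω))) :
    ∀ᵐ ω ∂P, (μl ω : Measure S1) (JJ σ δ) ≠ 0 → ∀ A : Set S1, MeasurableSet A →
      (μl ω : Measure S1) Aᶜ = 0 → ENNReal.ofReal (1 - γ ^ 2 / 4 - 2 * ε) ≤ dimH A := by
  filter_upwards [h.ae_link γ μ hμ μl hlim,
    ae_bad' h γ (by linarith) ε hε.ne' (by rw [abs_of_pos hε]; exact hε1) σ δ hσ hδ,
    ae_energy' h γ ε hε hε1 (by linarith) σ δ hσ hδ] with ω h1 h2 h3 hJ0 A hA hμA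
  obtain ⟨C0, c, hC0, hc, hU0, hF⟩ := h1
  set μ0 : Measure S1 := (μl ω : Measure S1) with hμ0
  set C : ℝ≥0∞ := C0 + 1 with hCdef
  have hC : C ≠ ⊤ := ENNReal.add_ne_top.mpr ⟨hC0, by norm_num⟩
  have hCne : C ≠ 0 := by rw [hCdef]; positivity
  have hU : ∀ U : Set S1, IsOpen U → μ0 U ≤
      C * liminf (fun n => ∫⁻ z in U, DD P ξ γ n ω z ∂arcLength) atTop := fun U hUo =>
    (hU0 U hUo).trans (mul_le_mul_left le_self_add _)
  set G : ℕ → Set S1 := fun m => ⋂ k, GG P ξ γ (γ ^ 2 / 4 + ε) m (m + k) ω with hG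
  have hGm : ∀ m, MeasurableSet (G m) := fun m =>
    MeasurableSet.iInter fun k => (isOpen_GG h γ _ m _ ω).measurableSet
  have hGmem : ∀ m z, z ∈ G m ↔ ∀ i, m ≤ i → EE P ξ γ (2 ^ i) ω z < bar (γ ^ 2 / 4 + ε) i := by
    intro m z
    simp only [hG, mem_iInter]
    constructor
    · intro hz i hi
      exact hz (i - m) i (Finset.mem_Icc.mpr ⟨hi, by omega⟩)
    · intro hz k i hi
      exact hz i (Finset.mem_Icc.mp hi).1
  have hGmono : ∀ m m', m ≤ m' → G m ⊆ G m' := by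
    intro m m' hmm z hz
    rw [hGmem] at hz ⊢
    exact fun i hi => hz i (hmm.trans hi)
  -- masses of the atypical points
  set T : ℕ → Set S1 := fun m =>
    JJ σ δ \ {z : S1 | EE P ξ γ (2 ^ m) ω z < bar (γ ^ 2 / 4 + ε) m} with hT
  have hTle : ∀ m, μ0 (T m) ≤ C * liminf (fun n => ∫⁻ z in JJ σ δ,
      FF P ξ γ ε ((γ ^ 2 / 4 + ε) * (m * Real.log 2)) (2 ^ m) n ω z ∂arcLength) atTop := by
    intro m
    have hsub : T m ⊆ JJ σ δ ∩
        LS P ξ γ ε ((γ ^ 2 / 4 + ε) * (m * Real.log 2)) (2 ^ m) ω := by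
      intro z hz
      refine ⟨hz.1, ?_⟩
      have h4 : ¬ (EE P ξ γ (2 ^ m) ω z < bar (γ ^ 2 / 4 + ε) m) := hz.2
      show 0 < ε * (EE P ξ γ (2 ^ m) ω z - (γ ^ 2 / 4 + ε) * (m * Real.log 2))
      apply mul_pos hε
      push Not at h4
      unfold bar at h4
      linarith
    refine (measure_mono hsub).trans ((hU _ ((isOpen_JJ σ δ).inter (h.isOpen_LS γ _ _ _ ω))).trans ?_)
    simp only [h.setLIntegral_LS γ _ _ _ _ ω _ (measurableSet_JJ σ δ)]
    exact le_rfl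
  have hTsum : ∑' m, μ0 (T m) ≠ ⊤ := by
    refine ne_top_of_le_ne_top ?_ (ENNReal.tsum_le_tsum hTle)
    rw [ENNReal.tsum_mul_left]
    exact ENNReal.mul_ne_top hC h2
  have hae := ae_eventually_notMem hTsum
  obtain ⟨m0, hm0⟩ : ∃ m0, μ0 (JJ σ δ ∩ G m0) ≠ 0 := by
    by_contra hcon
    push Not at hcon
    apply hJ0
    have hUn : μ0 (⋃ m0, (JJ σ δ ∩ G m0)) = 0 := measure_iUnion_null hcon
    have hle : ∀ᵐ z ∂μ0, z ∈ JJ σ δ → z ∈ ⋃ m0, (JJ σ δ ∩ G m0) := by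
      filter_upwards [hae] with z hz hzJ
      obtain ⟨m0, hm0⟩ := eventually_atTop.mp hz
      refine mem_iUnion.mpr ⟨m0, hzJ, ?_⟩
      rw [hGmem]
      intro i hi
      by_contra hcon2
      exact hm0 i hi ⟨hzJ, hcon2⟩
    have h5 := measure_mono_ae (s := JJ σ δ) (t := ⋃ m0, (JJ σ δ ∩ G m0)) (μ := μ0) hle
    rw [hUn] at h5
    exact le_antisymm h5 zero_le
  have hνA : (μ0.restrict (G m0)) Aᶜ = 0 := by
    apply le_antisymm _ zero_le
    exact (Measure.restrict_apply_le _ _).trans hμA.le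
  apply lower_dim (μ0.restrict (G m0)) (JJ σ δ) (measurableSet_JJ σ δ) _ G hGm
    (1 - γ ^ 2 / 4 - 2 * ε) hpos _ _ A hA hνA
  · rw [Measure.restrict_apply (measurableSet_JJ σ δ)]
    exact hm0
  · rw [tsum_eq_sum (s := Finset.range m0)]
    · exact ENNReal.sum_ne_top.mpr fun m _ => measure_ne_top _ _
    · intro m hm
      have hm' : m0 ≤ m := by simpa using hm
      rw [Measure.restrict_apply ((measurableSet_JJ σ δ).diff (hGm m))]
      have he : JJ σ δ \ G m ∩ G m0 = ∅ := by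
        ext z
        simp only [mem_inter_iff, Set.mem_sdiff, mem_empty_iff_false, iff_false]
        rintro ⟨⟨_, h6⟩, h7⟩
        exact h6 (hGmono m0 m hm' h7)
      rw [he, measure_empty]
  · have hle : ∀ m : ℕ, ENNReal.ofReal ((2 ^ (1 - γ ^ 2 / 4 - 2 * ε)) ^ m) *
        ∑ j ∈ Finset.range (2 ^ m), (μ0.restrict (G m0)) (bb m j ∩ JJ σ δ ∩ G m) ^ 2
        ≤ C ^ 2 * (ENNReal.ofReal ((2 ^ (1 - γ ^ 2 / 4 - 2 * ε)) ^ m) *
      ∑ j ∈ Finset.range (2 ^ m), (WW P ξ γ (γ ^ 2 / 4 + ε) m (bb m j ∩ JJ σ δ) ω) ^ 2) := by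
      intro m
      rw [mul_left_comm]
      apply mul_le_mul_right
      rw [Finset.mul_sum]
      apply Finset.sum_le_sum
      intro j _
      rw [← mul_pow]
      have hbo : IsOpen (bb m j ∩ JJ σ δ) := (isOpen_bb m j).inter (isOpen_JJ σ δ)
      have h4 : (μ0.restrict (G m0)) (bb m j ∩ JJ σ δ ∩ G m) ≤
          C * WW P ξ γ (γ ^ 2 / 4 + ε) m (bb m j ∩ JJ σ δ) ω := by
        refine (Measure.restrict_apply_le _ _).trans ?_
        unfold WW
        rw [ENNReal.mul_iInf_of_ne hCne hC]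
        apply le_iInf
        intro N
        have h5 := hU _ (hbo.inter (isOpen_GG h γ (γ ^ 2 / 4 + ε) m (m + N) ω))
        refine (measure_mono (inter_subset_inter_right _ (iInter_subset _ N))).trans (h5.trans ?_)
        gcongr
        simp only [setLIntegral_GG h γ (γ ^ 2 / 4 + ε) m (m + N) _ ω (bb m j ∩ JJ σ δ)]
        exact liminf_le_subseq _
      exact pow_le_pow_left₀ zero_le h4 2
    refine ne_top_of_le_ne_top ?_ (ENNReal.tsum_le_tsum hle)
    rw [ENNReal.tsum_mul_left]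
    exact ENNReal.mul_ne_top (ENNReal.pow_ne_top hC) h3

end Pool.Agent.H85.CH2
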