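import Pool.Agent.H85.CH2.DimAll
import Pool.Agent.H85.CH2.Crit

/-!
The phase diagram.
-/

set_option autoImplicit false

namespace Pool.Agent.H85.CH2

open MeasureTheory ProbabilityTheory Filter Topology
open Pool.Agent.Results.MP_ab74d4_pr.ChaosConvergence
open Pool.Agent.Y977.CH

/-- Finite logarithmic moment. -/
lemma phase_finite {Ω : Type*} {mΩ : MeasurableSpace Ω} (P : Measure Ω) (ξ : ℕ → Ω → ℂ)
    (h : Hyp P ξ) (γ : ℝ) (hγ : 0 < γ) (μ : ℕ → Ω → FiniteMeasure S1) (hμ : IsChaos P ξ γ μ)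
    (μlim : Ω → FiniteMeasure S1)
    (hlim : ∀ᵐ ω ∂P, Tendsto (fun n => μ n ω) atTop (𝓝 (μlim ω)))
    (hlog : Integrable (fun ω => ‖ξ 0 ω‖ ^ 2 * Real.log (1 + ‖ξ 0 ω‖)) P) :
    ∀ᵐ ω ∂P, dimMeasure (μlim ω : Measure S1) = ENNReal.ofReal (1 - γ ^ 2 / 4) ∧
      (μlim ω = 0 ↔ 2 ≤ γ) := by
  have hs := h.summable_tl hlog
  rcases lt_or_ge γ 2 with hγ2 | hγ2
  · have hg : γ ^ 2 / 4 < 1 := by nlinarith
    have hpos := ae_pos' h γ hg hs μ hμ μlim hlim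
    filter_upwards [hpos, ae_dim' h γ hg 1 (1 / 4) (by simp) (by norm_num) μ hμ μlim hlim hpos] with
      ω g1 g2
    refine ⟨g2, ?_, fun hcon => absurd hcon (not_le.mpr hγ2)⟩
    intro h0
    exfalso
    apply g1
    rw [h0]
    simp
  · have hg : 4 ≤ γ ^ 2 := by nlinarith
    filter_upwards [ae_crit h γ hg hs μ hμ μlim hlim] with ω g1
    refine ⟨?_, fun _ => hγ2, fun _ => g1⟩
    rw [dim_of_eq_zero _ g1, ENNReal.ofReal_of_nonpos (by linarith)]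

/-- Infinite logarithmic moment. -/
lemma phase_infinite {Ω : Type*} {mΩ : MeasurableSpace Ω} (P : Measure Ω) (ξ : ℕ → Ω → ℂ)
    (h : Hyp P ξ) (γ : ℝ) (hγ : 0 < γ) (μ : ℕ → Ω → FiniteMeasure S1) (hμ : IsChaos P ξ γ μ)
    (μlim : Ω → FiniteMeasure S1)
    (hlim : ∀ᵐ ω ∂P, Tendsto (fun n => μ n ω) atTop (𝓝 (μlim ω)))
    (hlog : ¬ Integrable (fun ω => ‖ξ 0 ω‖ ^ 2 * Real.log (1 + ‖ξ 0 ω‖)) P) :
    ∀ᵐ ω ∂P, μlim ω = 0 ∧ dimMeasure (μlim ω : Measure S1) = 0 :=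
  (dichotomy P ξ h γ hγ μ hμ μlim hlim).2 hlog

end Pool.Agent.H85.CH2
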