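import Pool.Graph.R_seed8.Y977.CH.Main

/-!
Second moments of the chaos restricted to the points that are good at all dyadic levels.
-/

set_option autoImplicit false

open MeasureTheory ProbabilityTheory Filter Topology Set
open scoped ENNReal NNReal

namespace Pool.Agent.H85.CH2

open Pool.Agent.Results.MP_ab74d4_pr.ChaosConvergence
open Pool.Agent.Y977.CH

variable {Ω : Type*} {mΩ : MeasurableSpace Ω} {P : Measure Ω} {ξ : ℕ → Ω → ℂ}

/-- The barrier at level `i`. -/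
noncomputable def bar (c : ℝ) (i : ℕ) : ℝ := c * (i * Real.log 2) + 1

lemma bar_mono (c : ℝ) (hc : 0 ≤ c) {i j : ℕ} (hij : i ≤ j) : bar c i ≤ bar c j := by
  unfold bar
  have h1 : (i : ℝ) ≤ j := by exact_mod_cast hij
  have h2 : 0 ≤ Real.log 2 := Real.log_nonneg (by norm_num)
  gcongr

lemma exp_bar_add (c : ℝ) (m i : ℕ) :
    Real.exp (bar c (m + i)) = Real.exp (bar c m) * (2 ^ c) ^ i := by
  unfold bar
  rw [Real.rpow_def_of_pos (by norm_num), ← Real.exp_nat_mul, ← Real.exp_add]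
  congr 1
  push_cast
  ring

/-- The points which are good at all levels between `m` and `k`. -/
def GG (P : Measure Ω) (ξ : ℕ → Ω → ℂ) (γ c : ℝ) (m k : ℕ) (ω : Ω) : Set S1 :=
  {z : S1 | ∀ i ∈ Finset.Icc m k, EE P ξ γ (2 ^ i) ω z < bar c i}

lemma isOpen_GG (h : Hyp P ξ) (γ c : ℝ) (m k : ℕ) (ω : Ω) : IsOpen (GG P ξ γ c m k ω) := by
  have e : GG P ξ γ c m k ω = ⋂ i ∈ Finset.Icc m k, {z : S1 | EE P ξ γ (2 ^ i) ω z < bar c i} := by
    ext z
    simp only [GG, mem_ofPred_eq, mem_iInter]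
  rw [e]
  apply isOpen_biInter_finset
  intro i _
  exact isOpen_lt (h.continuous_EE' γ (2 ^ i) ω) continuous_const

lemma GG_anti (γ c : ℝ) (m : ℕ) {k k' : ℕ} (hk : k ≤ k') (ω : Ω) :
    GG P ξ γ c m k' ω ⊆ GG P ξ γ c m k ω := by
  intro z hz i hi
  exact hz i (Finset.Icc_subset_Icc_right hk hi)

/-- The density restricted to the good points. -/
noncomputable def FG (P : Measure Ω) (ξ : ℕ → Ω → ℂ) (γ c : ℝ) (m k n : ℕ) (ω : Ω) (z : S1) :
    ℝ≥0∞ :=
  (GG P ξ γ c m k ω).indicator (fun z => DD P ξ γ n ω z) z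

lemma measurable_FG (h : Hyp P ξ) (γ c : ℝ) (m k n : ℕ) :
    Measurable (fun q : Ω × S1 => FG P ξ γ c m k n q.1 q.2) := by
  have e : (fun q : Ω × S1 => FG P ξ γ c m k n q.1 q.2) =
      (⋂ i ∈ Finset.Icc m k, {q : Ω × S1 | EE P ξ γ (2 ^ i) q.1 q.2 < bar c i}).indicator
        (fun q => DD P ξ γ n q.1 q.2) := by
    funext q
    by_cases hq : q.2 ∈ GG P ξ γ c m k q.1
    · have hq' : q ∈ ⋂ i ∈ Finset.Icc m k, {q : Ω × S1 | EE P ξ γ (2 ^ i) q.1 q.2 < bar c i} := by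
        rw [mem_iInter₂]
        exact hq
      unfold FG
      rw [indicator_of_mem hq, indicator_of_mem hq']
    · have hq' : q ∉ ⋂ i ∈ Finset.Icc m k, {q : Ω × S1 | EE P ξ γ (2 ^ i) q.1 q.2 < bar c i} := by
        rw [mem_iInter₂]
        exact hq
      unfold FG
      rw [indicator_of_notMem hq, indicator_of_notMem hq']
  rw [e]
  refine (h.measurable_DD γ n).indicator ?_
  apply Finset.measurableSet_biInter
  intro i _
  exact measurableSet_lt (h.measurable_EE' γ (2 ^ i)) measurable_const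

lemma measurable_int_FG (h : Hyp P ξ) (γ c : ℝ) (m k n : ℕ) (S : Set S1) :
    Measurable (fun ω => ∫⁻ z in S, FG P ξ γ c m k n ω z ∂arcLength) :=
  (measurable_FG h γ c m k n).lintegral_prod_right'

lemma setLIntegral_GG (h : Hyp P ξ) (γ c : ℝ) (m k n : ℕ) (ω : Ω) (S : Set S1) :
    ∫⁻ z in S ∩ GG P ξ γ c m k ω, DD P ξ γ n ω z ∂arcLength
      = ∫⁻ z in S, FG P ξ γ c m k n ω z ∂arcLength := by
  unfold FG
  rw [inter_comm, ← Measure.restrict_restrict (isOpen_GG h γ c m k ω).measurableSet]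
  rw [← lintegral_indicator (isOpen_GG h γ c m k ω).measurableSet]

/-- The two point function of the good part. -/
lemma two_point (h : Hyp P ξ) (γ c : ℝ) (hc : 0 ≤ c) (m k : ℕ) (hmk : m ≤ k) (σ δ : ℝ)
    (hσ : |σ| = 1) (hδ : 0 < δ) (z w : S1) (hz : z ∈ JJ σ δ) (hw : w ∈ JJ σ δ) (ρ : ℝ)
    (hρ : 2 ≤ 2 ^ m * ρ) (hd : dist z w < ρ) :
    ∫⁻ ω, FG P ξ γ c m k (2 ^ k) ω z * FG P ξ γ c m k (2 ^ k) ω w ∂P ≤
      ENNReal.ofReal (Real.exp (dd P ξ (2 * |γ|) + γ ^ 2 / 2 * (2 + 1 / δ) + bar c m)) *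
        ker c ρ z w := by
  have hρpos : 0 < ρ := lt_of_le_of_lt dist_nonneg hd
  rcases eq_or_ne z w with hzw | hzw
  · subst hzw
    have h1 : ker c ρ z z = ⊤ := by
      unfold Pool.Agent.Y977.CH.ker
      rw [eq_top_iff, ← ENNReal.tsum_const_eq_top_of_ne_zero (α := ℕ) (c := 1) one_ne_zero]
      apply ENNReal.tsum_le_tsum
      intro i
      have h2 : z ∈ Metric.ball z (ρ / 2 ^ i) := Metric.mem_ball_self (by positivity)
      rw [indicator_of_mem h2, Pi.one_apply, mul_one, ← ENNReal.ofReal_one]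
      apply ENNReal.ofReal_le_ofReal
      apply one_le_pow₀
      exact Real.one_le_rpow (by norm_num) hc
    rw [h1, ENNReal.mul_top (by positivity)]
    exact le_top
  · have hdpos : 0 < dist z w := dist_pos.mpr hzw
    obtain ⟨i, hi1, hi2⟩ : ∃ i : ℕ, dist z w < ρ / 2 ^ i ∧ ρ / 2 ^ (i + 1) ≤ dist z w := by
      have hex : ∃ i : ℕ, ρ / 2 ^ i ≤ dist z w := by
        obtain ⟨i, hi⟩ := pow_unbounded_of_one_lt (ρ / dist z w) (by norm_num : (1 : ℝ) < 2)
        refine ⟨i, ?_⟩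
        rw [div_lt_iff₀ hdpos] at hi
        rw [div_le_iff₀ (by positivity)]
        linarith
      classical
      have h0 : Nat.find hex ≠ 0 := by
        intro h0
        have := Nat.find_spec hex
        rw [h0] at this
        simp at this
        linarith
      obtain ⟨i, hi⟩ := Nat.exists_eq_succ_of_ne_zero h0
      refine ⟨i, ?_, ?_⟩
      · have := Nat.find_min hex (m := i) (by omega)
        exact not_le.mp this
      · have := Nat.find_spec hex
        rw [hi] at this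
        exact this
    have hnorm : ‖(z : ℂ) - w‖ = dist z w := by rw [Subtype.dist_eq, dist_eq_norm]
    set l : ℕ := min (m + i) k with hl
    have hlk : l ≤ k := min_le_right _ _
    have hml : m ≤ l := le_min (Nat.le_add_right _ _) hmk
    have hpow : (2 : ℕ) ^ l ≤ 2 ^ k := Nat.pow_le_pow_right (by norm_num) hlk
    have hpt : ∀ ω, FG P ξ γ c m k (2 ^ k) ω z * FG P ξ γ c m k (2 ^ k) ω w ≤
        ENNReal.ofReal (Real.exp (bar c l)) *
        ENNReal.ofReal (Real.exp (EE P ξ γ (2 ^ k) ω z + EE P ξ γ (2 ^ k) ω w -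
          EE P ξ γ (2 ^ l) ω z)) := by
      intro ω
      by_cases hzG : z ∈ GG P ξ γ c m k ω
      · have h1 : FG P ξ γ c m k (2 ^ k) ω z = DD P ξ γ (2 ^ k) ω z := by
          unfold FG; rw [indicator_of_mem hzG]
        have h2 : FG P ξ γ c m k (2 ^ k) ω w ≤ DD P ξ γ (2 ^ k) ω w := by
          unfold FG; exact indicator_le_self _ _ _
        have h3 : EE P ξ γ (2 ^ l) ω z < bar c l := hzG l (Finset.mem_Icc.mpr ⟨hml, hlk⟩)
        rw [h1]
        refine (mul_le_mul_right h2 _).trans ?_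
        unfold DD
        rw [← ENNReal.ofReal_mul (Real.exp_pos _).le, ← ENNReal.ofReal_mul (Real.exp_pos _).le,
          ← Real.exp_add, ← Real.exp_add]
        apply ENNReal.ofReal_le_ofReal
        apply Real.exp_le_exp.mpr
        linarith
      · have h1 : FG P ξ γ c m k (2 ^ k) ω z = 0 := by
          unfold FG; rw [indicator_of_notMem hzG]
        rw [h1, zero_mul]
        exact zero_le
    refine (lintegral_mono hpt).trans ?_
    rw [lintegral_const_mul' _ _ ENNReal.ofReal_ne_top]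
    have hsum : ∑ q ∈ Finset.Ico (2 ^ l) (2 ^ k),
        (qq P ξ q ((γ : ℂ) * ((z : ℂ) ^ (q + 1) + (w : ℂ) ^ (q + 1))) / 2
        - γ ^ 2 / 2 * (qq P ξ q ((z : ℂ) ^ (q + 1)) + qq P ξ q ((w : ℂ) ^ (q + 1)))) ≤
        γ ^ 2 / 2 * (2 + 1 / δ) := by
      rcases le_or_gt (m + i) k with hik | hik
      · have hle : l = m + i := min_eq_left hik
        have hcond : 1 ≤ ((2 ^ l : ℕ) : ℝ) * ‖(z : ℂ) - w‖ * 2 ^ 0 := by
          rw [hnorm, hle, pow_zero, mul_one]
          push_cast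
          rw [div_le_iff₀ (by positivity), pow_succ] at hi2
          rw [pow_add]
          have h2m : (0 : ℝ) < 2 ^ m := by positivity
          nlinarith
        have h1 := h.sum_cov_le (2 ^ l) (2 ^ k) 0 Nat.one_le_two_pow z w (norm_coe z) (norm_coe w) γ
          hcond (2 * δ) (by positivity) (two_mul_le_norm_one_sub_mul σ δ hσ z w hz hw)
        refine h1.trans (le_of_eq ?_)
        have h4 : 2 / (2 * δ) = 1 / δ := by field_simp
        rw [h4]
        simp
      · have hle : l = k := min_eq_right hik.le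
        rw [hle, Finset.Ico_self, Finset.sum_empty]
        positivity
    have hm2 := h.moment_two γ (2 ^ l) (2 ^ k) hpow z w (norm_coe z) (norm_coe w)
    refine (mul_le_mul_right hm2 _).trans ?_
    have h2 : ENNReal.ofReal ((2 ^ c) ^ i) ≤ ker c ρ z w := by
      unfold Pool.Agent.Y977.CH.ker
      refine le_trans ?_ (ENNReal.le_tsum i)
      have h3 : w ∈ Metric.ball z (ρ / 2 ^ i) := by rw [Metric.mem_ball, dist_comm]; exact hi1
      rw [indicator_of_mem h3, Pi.one_apply, mul_one]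
    refine le_trans ?_ (mul_le_mul_right h2 _)
    rw [← ENNReal.ofReal_mul (Real.exp_pos _).le, ← ENNReal.ofReal_mul (Real.exp_pos _).le,
      ← Real.exp_add]
    apply ENNReal.ofReal_le_ofReal
    have h5 : Real.exp (bar c l) ≤ Real.exp (bar c m) * (2 ^ c) ^ i := by
      rw [← exp_bar_add]
      exact Real.exp_le_exp.mpr (bar_mono c hc (min_le_left _ _))
    rw [Real.exp_add (bar c l), Real.exp_add (dd P ξ (2 * |γ|) + γ ^ 2 / 2 * (2 + 1 / δ)), mul_assoc]
    rw [mul_comm (Real.exp (bar c l))]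
    apply mul_le_mul _ h5 (Real.exp_pos _).le (Real.exp_pos _).le
    apply Real.exp_le_exp.mpr
    linarith

/-- Second moment of the good part. -/
lemma sq_bound (h : Hyp P ξ) (γ c : ℝ) (hc : 0 ≤ c) (hc1 : c < 1) (m k : ℕ) (hmk : m ≤ k)
    (σ δ : ℝ) (hσ : |σ| = 1) (hδ : 0 < δ) (B : Set S1) (hB : MeasurableSet B) (hBJ : B ⊆ JJ σ δ)
    (ρ : ℝ) (hρ : 2 ≤ 2 ^ m * ρ) (hd : ∀ z ∈ B, ∀ w ∈ B, dist z w < ρ) :
    ∫⁻ ω, (∫⁻ z in B, FG P ξ γ c m k (2 ^ k) ω z ∂arcLength) ^ 2 ∂P ≤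
      ENNReal.ofReal (Real.exp (dd P ξ (2 * |γ|) + γ ^ 2 / 2 * (2 + 1 / δ) + bar c m)) *
        ENNReal.ofReal (10 * ρ / (1 - 2 ^ (c - 1))) * arcLength B := by
  have := h.prob
  have hρ0 : 0 ≤ ρ := by
    by_contra hcon
    push Not at hcon
    have : (0 : ℝ) < 2 ^ m := by positivity
    nlinarith
  set K : ℝ≥0∞ :=
    ENNReal.ofReal (Real.exp (dd P ξ (2 * |γ|) + γ ^ 2 / 2 * (2 + 1 / δ) + bar c m)) with hK
  refine (second_moment (fun ω z => FG P ξ γ c m k (2 ^ k) ω z) (measurable_FG h γ c m k (2 ^ k)) B hB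
    (fun z w => K * ker c ρ z w) ((measurable_ker _ _).const_mul _) ?_).trans ?_
  · intro z hz w hw
    exact two_point h γ c hc m k hmk σ δ hσ hδ z w (hBJ hz) (hBJ hw) ρ hρ (hd z hz w hw)
  · have hk : ∀ z, ∫⁻ w in B, K * ker c ρ z w ∂arcLength
        ≤ K * ENNReal.ofReal (10 * ρ / (1 - 2 ^ (c - 1))) := by
      intro z
      rw [lintegral_const_mul' _ _ ENNReal.ofReal_ne_top]
      gcongr
      exact (setLIntegral_le_lintegral _ _).trans (lintegral_ker_le _ _ hc1 hρ0 z)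
    refine (lintegral_mono hk).trans ?_
    rw [setLIntegral_const]

/-- Points which are good up to level `N` are good up to level `k` or atypical at some level in
between. -/
lemma FG_split (γ t : ℝ) (ht : 0 < t) (m N k n : ℕ) (ω : Ω) (z : S1) :
    FG P ξ γ (γ ^ 2 / 4 + t) m N n ω z ≤ FG P ξ γ (γ ^ 2 / 4 + t) m k n ω z +
      ∑ i ∈ Finset.Ioc N k, FF P ξ γ t ((γ ^ 2 / 4 + t) * (i * Real.log 2)) (2 ^ i) n ω z := by
  by_cases h1 : z ∈ GG P ξ γ (γ ^ 2 / 4 + t) m N ω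
  · by_cases h2 : z ∈ GG P ξ γ (γ ^ 2 / 4 + t) m k ω
    · unfold FG
      rw [indicator_of_mem h1, indicator_of_mem h2]
      exact le_self_add
    · have h3 : ∃ i ∈ Finset.Icc m k, bar (γ ^ 2 / 4 + t) i ≤ EE P ξ γ (2 ^ i) ω z := by
        by_contra hcon
        push Not at hcon
        exact h2 hcon
      obtain ⟨i, hi, hib⟩ := h3
      have hiN : N < i := by
        by_contra hcon
        push Not at hcon
        have h4 := h1 i (Finset.mem_Icc.mpr ⟨(Finset.mem_Icc.mp hi).1, hcon⟩)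
        linarith
      have hi' : i ∈ Finset.Ioc N k := Finset.mem_Ioc.mpr ⟨hiN, (Finset.mem_Icc.mp hi).2⟩
      refine le_trans ?_ le_add_self
      refine le_trans ?_ (Finset.single_le_sum (fun j _ => zero_le) hi')
      unfold FG FF
      rw [indicator_of_mem h1, indicator_of_mem]
      show 0 < t * (EE P ξ γ (2 ^ i) ω z - (γ ^ 2 / 4 + t) * (i * Real.log 2))
      apply mul_pos ht
      unfold bar at hib
      linarith
  · unfold FG
    rw [indicator_of_notMem h1]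
    exact zero_le

/-- Geometric first moment bound for the atypical points. -/
lemma first_geo (h : Hyp P ξ) (γ : ℝ) (hγ : γ ^ 2 / 4 < 1) (t : ℝ) (ht0 : t ≠ 0) (ht : |t| ≤ 1)
    (σ δ : ℝ) (hσ : |σ| = 1) (hδ : 0 < δ) :
    ∃ C r : ℝ, 0 ≤ C ∧ 0 < r ∧ r < 1 ∧ ∀ m n : ℕ, 2 ^ m ≤ n → ∫⁻ ω, ∫⁻ z in JJ σ δ,
      FF P ξ γ t ((γ ^ 2 / 4 + t) * (m * Real.log 2)) (2 ^ m) n ω z ∂arcLength ∂P ≤
        ENNReal.ofReal (C * r ^ m) * arcLength univ := by
  have hlog2 : 0 < Real.log 2 := Real.log_pos (by norm_num)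
  set C : ℝ := γ ^ 2 / 4 * |t + t ^ 2| + γ ^ 2 / 2 * |t + t ^ 2| / δ ^ 2 + dd P ξ (2 * |γ|) with hC
  set r : ℝ := Real.exp (-(Real.log 2 * (t ^ 2 * (1 - γ ^ 2 / 4)))) with hr
  have hr1 : r < 1 := by
    rw [hr, Real.exp_lt_one_iff]
    have h1 : 0 < t ^ 2 := by positivity
    have h2 : 0 < 1 - γ ^ 2 / 4 := by linarith
    have := mul_pos hlog2 (mul_pos h1 h2)
    linarith
  refine ⟨Real.exp C, r, (Real.exp_pos _).le, Real.exp_pos _, hr1, fun m n hn => ?_⟩
  refine (h.first_bad γ t ht (2 ^ m) n hn σ δ hσ hδ _).trans ?_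
  apply mul_le_mul_left
  apply ENNReal.ofReal_le_ofReal
  rw [hr, ← Real.exp_nat_mul, ← Real.exp_add]
  apply Real.exp_le_exp.mpr
  obtain ⟨hb1, hb2⟩ := harmonic_bounds m
  set H := ∑ k ∈ Finset.range (2 ^ m), 1 / ((k : ℝ) + 1) with hH
  have h1 : (t + t ^ 2) * (H - m * Real.log 2) ≤ |t + t ^ 2| := by
    refine (le_abs_self _).trans ?_
    rw [abs_mul]
    have : |H - m * Real.log 2| ≤ 1 := by
      rw [abs_le]; constructor <;> linarith
    calc |t + t ^ 2| * |H - m * Real.log 2| ≤ |t + t ^ 2| * 1 := by gcongr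
      _ = _ := mul_one _
  have h2 : γ ^ 2 / 4 * ((t + t ^ 2) * (H - m * Real.log 2)) ≤ γ ^ 2 / 4 * |t + t ^ 2| := by
    gcongr
  rw [hC]
  nlinarith [h2]

end Pool.Agent.H85.CH2
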