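import Pool.Agent.H85.CH2.Posit

/-!
Block estimates for the tilted law of the exponent.
-/

set_option autoImplicit false

open MeasureTheory ProbabilityTheory Filter Topology Set
open scoped ENNReal NNReal

namespace Pool.Agent.H85.CH2

open Pool.Agent.Results.MP_ab74d4_pr.ChaosConvergence
open Pool.Agent.Y977.CH

variable {Ω : Type*} {mΩ : MeasurableSpace Ω} {P : Measure Ω} {ξ : ℕ → Ω → ℂ}

lemma dl_mono {B B' : ℝ} (hB : |B| ≤ |B'|) (k : ℕ) : dl P ξ B k ≤ dl P ξ B' k := by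
  unfold dl
  have h1 : 0 ≤ ∫ ω, low k ‖ξ k ω‖ ∂P := integral_nonneg fun ω => low_nonneg k (norm_nonneg _)
  have h2 : 0 ≤ ∫ ω, high k ‖ξ k ω‖ ∂P := integral_nonneg fun ω => high_nonneg k (norm_nonneg _)
  gcongr

lemma lo_mono (h : Hyp P ξ) {γ γ' : ℝ} (hg : |γ| ≤ |γ'|) (k : ℕ) :
    lo P ξ γ k ≤ lo P ξ γ' k := by
  unfold lo
  have hsq : γ ^ 2 ≤ γ' ^ 2 := sq_le_sq.mpr hg
  have h1 := h.tl_nonneg k
  have h2 : dl P ξ |γ| k ≤ dl P ξ |γ'| k := dl_mono (by simpa using hg) k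
  gcongr

/-- the variance of a block -/
noncomputable def QQ (P : Measure Ω) (ξ : ℕ → Ω → ℂ) (M N : ℕ) (z : S1) : ℝ :=
  ∑ k ∈ Finset.Ico M N, qq P ξ k ((z : ℂ) ^ (k + 1))

lemma exp_ET_eq (γ : ℝ) (M N : ℕ) (ω : Ω) (z : S1) :
    Real.exp (ET P ξ γ M N ω z) =
      Real.exp (-∑ k ∈ Finset.Ico M N, γ ^ 2 / 2 * qq P ξ k ((z : ℂ) ^ (k + 1))) *
      Real.exp (∑ k ∈ Finset.Ico M N, LL k ((γ : ℂ) * (z : ℂ) ^ (k + 1)) (ξ k ω)) := by
  rw [← Real.exp_add]
  congr 1
  unfold ET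
  rw [Finset.sum_sub_distrib]
  simp only [LL_smul]
  ring

lemma block_upper (h : Hyp P ξ) (B γ : ℝ) (hg : |γ| ≤ B) (M N : ℕ) (z : S1) :
    ∫⁻ ω, ENNReal.ofReal (Real.exp (ET P ξ γ M N ω z)) ∂P ≤
      ENNReal.ofReal (Real.exp (∑ k ∈ Finset.Ico M N, dl P ξ B k)) := by
  simp only [exp_ET_eq, ENNReal.ofReal_mul (Real.exp_pos _).le]
  rw [lintegral_const_mul' _ _ ENNReal.ofReal_ne_top]
  calc _ ≤ ENNReal.ofReal (Real.exp (-∑ k ∈ Finset.Ico M N,
          γ ^ 2 / 2 * qq P ξ k ((z : ℂ) ^ (k + 1)))) *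
        ENNReal.ofReal (Real.exp (∑ k ∈ Finset.Ico M N,
          (qq P ξ k ((γ : ℂ) * (z : ℂ) ^ (k + 1)) / 2 + dl P ξ B k))) := by
        gcongr
        apply h.lintegral_exp_sum_le
        intro k _
        rw [norm_mul, norm_pow, norm_coe, one_pow, mul_one, Complex.norm_real, Real.norm_eq_abs]
        exact hg
    _ = _ := by
        rw [← ENNReal.ofReal_mul (Real.exp_pos _).le, ← Real.exp_add, ← Finset.sum_neg_distrib,
          ← Finset.sum_add_distrib]
        congr 2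
        apply Finset.sum_congr rfl
        intro k _
        rw [h.qq_smul]
        ring

lemma block_lower (h : Hyp P ξ) (B γ : ℝ) (hg : |γ| ≤ |B|) (M : ℕ) (hM1 : B ^ 2 / 2 ≤ M)
    (hM2 : ∀ n, ∑ k ∈ Finset.Ico M n, lo P ξ B k ≤ 1 / 2) (N : ℕ) (z : S1) :
    ENNReal.ofReal (1 / 2) ≤ ∫⁻ ω, ENNReal.ofReal (Real.exp (ET P ξ γ M N ω z)) ∂P := by
  have hint : Integrable (fun ω => Real.exp (ET P ξ γ M N ω z)) P := by
    simp only [exp_ET_eq]
    exact (h.integrable_exp_sum _ _).const_mul _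
  rw [← ofReal_integral_eq_lintegral_ofReal hint (ae_of_all _ fun ω => (Real.exp_pos _).le)]
  apply ENNReal.ofReal_le_ofReal
  simp only [exp_ET_eq]
  rw [integral_const_mul, h.integral_exp_sum, ← Finset.sum_neg_distrib, Real.exp_sum,
    ← Finset.prod_mul_distrib]
  have hle0 : ∀ k ∈ Finset.Ico M N, lo P ξ B k ≤ 1 := by
    intro k hk
    have h4 : lo P ξ B k ≤ ∑ k ∈ Finset.Ico M N, lo P ξ B k :=
      Finset.single_le_sum (fun k _ => h.lo_nonneg B k) hk
    linarith [hM2 N]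
  have hsq : γ ^ 2 ≤ B ^ 2 := sq_le_sq.mpr hg
  calc (1 : ℝ) / 2 ≤ 1 - ∑ k ∈ Finset.Ico M N, lo P ξ B k := by linarith [hM2 N]
    _ ≤ ∏ k ∈ Finset.Ico M N, (1 - lo P ξ B k) :=
        one_sub_sum_le_prod _ _ (fun k _ => h.lo_nonneg B k) hle0
    _ ≤ _ := by
        apply Finset.prod_le_prod
        · intro k hk; linarith [hle0 k hk]
        · intro k hk
          rw [mul_comm]
          refine le_trans ?_ (factor_ge' h γ k ?_ z)
          · linarith [lo_mono h hg k]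
          · have h5 : (M : ℝ) ≤ k := by exact_mod_cast (Finset.mem_Ico.mp hk).1
            linarith

lemma tilt (γ τ : ℝ) (M N : ℕ) (ω : Ω) (z : S1) :
    (1 + τ) * ET P ξ γ M N ω z =
      ET P ξ ((1 + τ) * γ) M N ω z + γ ^ 2 / 2 * (τ + τ ^ 2) * QQ P ξ M N z := by
  unfold ET QQ
  rw [Finset.mul_sum, Finset.mul_sum, ← Finset.sum_add_distrib]
  apply Finset.sum_congr rfl
  intro k _
  ring

/-- The arithmetic at the end of the proof of `jump`. -/
lemma jump_arith (g τ Q S s η t : ℝ) (hg2 : 2 ≤ g) (hτS : τ * S = 2)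
    (hs : s = g * Q + S) (hη : η = Real.exp (-(g * (τ * Q)) - 12 * g) / 8)
    (hreal : 1 / 2 * Real.exp (g * (τ * Q) + 4 * g) ≤ Real.exp (τ * s) * 2 +
      (η / 2 * (Real.exp (2 * (g * (τ * Q)) + 16 * g) * 2) + 1 / (2 * η) * t)) :
    Real.exp (-(8 * g)) / 16 ≤ t := by
  set E : ℝ := Real.exp (g * (τ * Q)) with hE
  set F : ℝ := Real.exp (4 * g) with hF
  have hEpos : 0 < E := Real.exp_pos _
  have hFpos : 0 < F := Real.exp_pos _
  have a1 : Real.exp (g * (τ * Q) + 4 * g) = E * F := Real.exp_add _ _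
  have a2 : Real.exp (τ * s) = E * Real.exp 2 := by
    rw [hE, ← Real.exp_add]
    congr 1
    rw [hs]
    linear_combination hτS
  have a3 : η = E⁻¹ * (F⁻¹) ^ 3 / 8 := by
    rw [hη, hE, hF, ← Real.exp_neg, ← Real.exp_neg, ← Real.exp_nat_mul, ← Real.exp_add]
    congr 2
    push_cast
    ring
  have a4 : Real.exp (2 * (g * (τ * Q)) + 16 * g) = E ^ 2 * F ^ 4 := by
    rw [hE, hF, ← Real.exp_nat_mul, ← Real.exp_nat_mul, ← Real.exp_add]
    congr 1
    push_cast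
    ring
  have a5 : Real.exp (-(8 * g)) = (F⁻¹) ^ 2 := by
    rw [hF, ← Real.exp_neg, ← Real.exp_nat_mul]
    congr 1
    push_cast
    ring
  have a6 : 16 * Real.exp 2 ≤ F := by
    have h1 : Real.exp 8 ≤ F := Real.exp_le_exp.mpr (by linarith)
    have h2 : Real.exp 8 = Real.exp 2 * (Real.exp 1) ^ 6 := by
      rw [← Real.exp_nat_mul, ← Real.exp_add]
      norm_num
    have h3 : (2 : ℝ) ≤ Real.exp 1 := by
      have := Real.add_one_le_exp (1 : ℝ)
      linarith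
    have h4 : (2 : ℝ) ^ 6 ≤ (Real.exp 1) ^ 6 := pow_le_pow_left₀ (by norm_num) h3 6
    have h5 : 0 < Real.exp 2 := Real.exp_pos _
    nlinarith
  rw [a1, a2, a3, a4] at hreal
  rw [a5]
  have b1 : E⁻¹ * (F⁻¹) ^ 3 / 8 / 2 * (E ^ 2 * F ^ 4 * 2) = E * F / 8 := by
    field_simp
  have b2 : 1 / (2 * (E⁻¹ * (F⁻¹) ^ 3 / 8)) * t = 4 * E * F ^ 3 * t := by
    field_simp
    ring
  rw [b1, b2] at hreal
  have b3 : 1 / 2 * F ≤ Real.exp 2 * 2 + (F / 8 + 4 * F ^ 3 * t) := by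
    have : E * (1 / 2 * F) ≤ E * (Real.exp 2 * 2 + (F / 8 + 4 * F ^ 3 * t)) := by
      linarith
    exact le_of_mul_le_mul_left this hEpos
  have b4 : F / 4 ≤ 4 * F ^ 3 * t := by linarith
  have b5 : F * 1 ≤ F * (F ^ 2 * (16 * t)) := by
    have e : F * (F ^ 2 * (16 * t)) = 4 * (4 * F ^ 3 * t) := by ring
    rw [e]
    linarith
  have b6 : 1 ≤ F ^ 2 * (16 * t) := le_of_mul_le_mul_left b5 hFpos
  have b7 : (F⁻¹) ^ 2 ≤ 16 * t := by
    have e : (F⁻¹) ^ 2 * (F ^ 2 * (16 * t)) = 16 * t := by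
      field_simp
    calc (F⁻¹) ^ 2 = (F⁻¹) ^ 2 * 1 := (mul_one _).symm
      _ ≤ (F⁻¹) ^ 2 * (F ^ 2 * (16 * t)) := by gcongr
      _ = 16 * t := e
  linarith

/-- Under the law tilted by the exponential of the block, the block exceeds its variance times
`γ²/2` by at least one standard deviation with probability bounded below. -/
lemma jump (h : Hyp P ξ) (γ : ℝ) (hγ : 4 ≤ γ ^ 2) (M N : ℕ) (hM1 : (2 * γ) ^ 2 / 2 ≤ M)
    (hM2 : ∀ n, ∑ k ∈ Finset.Ico M n, lo P ξ (2 * γ) k ≤ 1 / 2)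
    (hM3 : ∀ n, Real.exp (∑ k ∈ Finset.Ico M n, dl P ξ (2 * |γ|) k) ≤ 2) (z : S1)
    (hQ : 16 ≤ QQ P ξ M N z) :
    ENNReal.ofReal (Real.exp (-(4 * γ ^ 2)) / 16) ≤
      ∫⁻ ω, {ω | γ ^ 2 / 2 * QQ P ξ M N z + √(QQ P ξ M N z) < ET P ξ γ M N ω z}.indicator
        (fun ω => ENNReal.ofReal (Real.exp (ET P ξ γ M N ω z))) ω ∂P := by
  set Q : ℝ := QQ P ξ M N z with hQdef
  set g : ℝ := γ ^ 2 / 2 with hg
  have hg2 : 2 ≤ g := by rw [hg]; linarith
  have hg4 : 4 * γ ^ 2 = 8 * g := by rw [hg]; ring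
  rw [hg4]
  set S : ℝ := √Q with hS
  have hQ0 : 0 ≤ Q := by linarith
  have hSS : S * S = Q := Real.mul_self_sqrt hQ0
  have hS4 : 4 ≤ S := by
    rw [hS]
    apply Real.le_sqrt_of_sq_le
    linarith
  have hSpos : 0 < S := by linarith
  set τ : ℝ := 2 / S with hτ
  have hτ0 : 0 < τ := by rw [hτ]; positivity
  have hτ1 : τ ≤ 1 / 2 := by
    rw [hτ, div_le_div_iff₀ hSpos (by norm_num)]
    linarith
  have hτS : τ * S = 2 := by rw [hτ]; field_simp
  have hτQ : τ * Q = 2 * S := by rw [← hSS, ← mul_assoc, hτS]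
  have hττQ : τ ^ 2 * Q = 4 := by
    calc τ ^ 2 * Q = (τ * S) * (τ * S) := by rw [← hSS]; ring
      _ = 4 := by rw [hτS]; norm_num
  set s : ℝ := g * Q + S with hs
  set X : Ω → ℝ := fun ω => ET P ξ γ M N ω z with hX
  set A : Set Ω := {ω | s < ET P ξ γ M N ω z} with hA
  set η : ℝ := Real.exp (-(g * (τ * Q)) - 12 * g) / 8 with hη
  have hηpos : 0 < η := by rw [hη]; positivity
  -- measurability
  have hXm : Measurable X := by
    have e : Measurable (fun ω : Ω => ((ω, z) : Ω × S1)) := measurable_id.prodMk measurable_const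
    have e2 := (h.measurable_ET γ M N mΩ fun k _ => h.meas k).comp e
    exact e2
  have hAm : MeasurableSet A := measurableSet_lt measurable_const hXm
  -- pointwise inequality
  have hpt : ∀ ω, ENNReal.ofReal (Real.exp ((1 + τ) * X ω)) ≤
      ENNReal.ofReal (Real.exp (τ * s)) * ENNReal.ofReal (Real.exp (X ω)) +
      (ENNReal.ofReal (η / 2) * ENNReal.ofReal (Real.exp ((1 + 2 * τ) * X ω)) +
      ENNReal.ofReal (1 / (2 * η)) * A.indicator (fun ω => ENNReal.ofReal (Real.exp (X ω))) ω) := by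
    intro ω
    by_cases hω : ω ∈ A
    · refine le_trans ?_ le_add_self
      rw [indicator_of_mem hω, ← ENNReal.ofReal_mul (by positivity),
        ← ENNReal.ofReal_mul (by positivity), ← ENNReal.ofReal_add (by positivity) (by positivity)]
      apply ENNReal.ofReal_le_ofReal
      have e1 : Real.exp ((1 + τ) * X ω) = Real.exp (X ω) * Real.exp (τ * X ω) := by
        rw [← Real.exp_add]; congr 1; ring
      have e2 : Real.exp ((1 + 2 * τ) * X ω) =
          Real.exp (X ω) * (Real.exp (τ * X ω) * Real.exp (τ * X ω)) := by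
        rw [← Real.exp_add, ← Real.exp_add]; congr 1; ring
      rw [e1, e2]
      set y := Real.exp (τ * X ω) with hy
      have hx : 0 < Real.exp (X ω) := Real.exp_pos _
      have hyy : y ≤ η / 2 * (y * y) + 1 / (2 * η) := by
        have h0 : 0 ≤ (η * y - 1) ^ 2 := sq_nonneg _
        have h1 : η / 2 * (y * y) + 1 / (2 * η) = (η * η * (y * y) + 1) / (2 * η) := by
          field_simp
        rw [h1, le_div_iff₀ (by positivity)]
        nlinarith
      calc Real.exp (X ω) * y ≤ Real.exp (X ω) * (η / 2 * (y * y) + 1 / (2 * η)) := by gcongr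
        _ = η / 2 * (Real.exp (X ω) * (y * y)) + 1 / (2 * η) * Real.exp (X ω) := by ring
    · refine le_trans ?_ le_self_add
      rw [← ENNReal.ofReal_mul (by positivity), ← Real.exp_add]
      apply ENNReal.ofReal_le_ofReal
      apply Real.exp_le_exp.mpr
      have hle : X ω ≤ s := not_lt.mp hω
      nlinarith
  have hint := lintegral_mono (μ := P) hpt
  have hXe : Measurable (fun ω => ENNReal.ofReal (Real.exp (X ω))) := hXm.exp.ennreal_ofReal
  have hX2e : Measurable (fun ω => ENNReal.ofReal (Real.exp ((1 + 2 * τ) * X ω))) :=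
    (hXm.const_mul _).exp.ennreal_ofReal
  rw [lintegral_add_left (hXe.const_mul _), lintegral_add_left (hX2e.const_mul _),
    lintegral_const_mul' _ _ ENNReal.ofReal_ne_top, lintegral_const_mul' _ _ ENNReal.ofReal_ne_top,
    lintegral_const_mul' _ _ ENNReal.ofReal_ne_top] at hint
  -- moment bounds
  have habs : |2 * γ| = 2 * |γ| := by rw [abs_mul, abs_of_pos (by norm_num : (0 : ℝ) < 2)]
  have hγ0 : 0 ≤ |γ| := abs_nonneg γ
  have hb1 : |(1 + τ) * γ| ≤ |2 * γ| := by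
    rw [abs_mul, habs, abs_of_pos (by linarith)]
    nlinarith
  have hb2 : |(1 + 2 * τ) * γ| ≤ 2 * |γ| := by
    rw [abs_mul, abs_of_pos (by linarith)]
    nlinarith
  have hL : ENNReal.ofReal (1 / 2 * Real.exp (g * (τ * Q) + 4 * g)) ≤
      ∫⁻ ω, ENNReal.ofReal (Real.exp ((1 + τ) * X ω)) ∂P := by
    have e1 : ∀ ω, ENNReal.ofReal (Real.exp ((1 + τ) * X ω)) =
        ENNReal.ofReal (Real.exp (g * (τ * Q) + 4 * g)) *
          ENNReal.ofReal (Real.exp (ET P ξ ((1 + τ) * γ) M N ω z)) := by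
      intro ω
      rw [← ENNReal.ofReal_mul (Real.exp_pos _).le, ← Real.exp_add]
      congr 2
      simp only [hX]
      rw [tilt]
      have : γ ^ 2 / 2 * (τ + τ ^ 2) * QQ P ξ M N z = g * (τ * Q) + g * (τ ^ 2 * Q) := by
        rw [← hg, ← hQdef]; ring
      rw [this, hττQ]
      ring
    simp only [e1]
    rw [lintegral_const_mul' _ _ ENNReal.ofReal_ne_top, mul_comm (1 / 2 : ℝ),
      ENNReal.ofReal_mul (Real.exp_pos _).le]
    gcongr
    exact block_lower h (2 * γ) ((1 + τ) * γ) hb1 M hM1 hM2 N z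
  have hR1 : ∫⁻ ω, ENNReal.ofReal (Real.exp (X ω)) ∂P ≤ ENNReal.ofReal 2 := by
    refine (block_upper h (2 * |γ|) γ (by linarith) M N z).trans ?_
    exact ENNReal.ofReal_le_ofReal (hM3 N)
  have hR2 : ∫⁻ ω, ENNReal.ofReal (Real.exp ((1 + 2 * τ) * X ω)) ∂P ≤
      ENNReal.ofReal (Real.exp (2 * (g * (τ * Q)) + 16 * g) * 2) := by
    have e1 : ∀ ω, ENNReal.ofReal (Real.exp ((1 + 2 * τ) * X ω)) =
        ENNReal.ofReal (Real.exp (2 * (g * (τ * Q)) + 16 * g)) *
          ENNReal.ofReal (Real.exp (ET P ξ ((1 + 2 * τ) * γ) M N ω z)) := by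
      intro ω
      rw [← ENNReal.ofReal_mul (Real.exp_pos _).le, ← Real.exp_add]
      congr 2
      simp only [hX]
      rw [tilt]
      have : γ ^ 2 / 2 * (2 * τ + (2 * τ) ^ 2) * QQ P ξ M N z =
          2 * (g * (τ * Q)) + 4 * g * (τ ^ 2 * Q) := by
        rw [← hg, ← hQdef]; ring
      rw [this, hττQ]
      ring
    simp only [e1]
    rw [lintegral_const_mul' _ _ ENNReal.ofReal_ne_top, ENNReal.ofReal_mul (Real.exp_pos _).le]
    gcongr
    refine (block_upper h (2 * |γ|) ((1 + 2 * τ) * γ) hb2 M N z).trans ?_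
    exact ENNReal.ofReal_le_ofReal (hM3 N)
  set T : ℝ≥0∞ := ∫⁻ ω, A.indicator (fun ω => ENNReal.ofReal (Real.exp (X ω))) ω ∂P with hT
  have hTtop : T ≠ ⊤ := by
    refine ne_top_of_le_ne_top ENNReal.ofReal_ne_top (le_trans ?_ hR1)
    exact lintegral_mono fun ω => indicator_le_self _ _ _
  have hTr : T = ENNReal.ofReal T.toReal := (ENNReal.ofReal_toReal hTtop).symm
  have ht0 : 0 ≤ T.toReal := ENNReal.toReal_nonneg
  show ENNReal.ofReal (Real.exp (-(8 * g)) / 16) ≤ T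
  rw [hTr]
  apply ENNReal.ofReal_le_ofReal
  have hmain : ENNReal.ofReal (1 / 2 * Real.exp (g * (τ * Q) + 4 * g)) ≤
      ENNReal.ofReal (Real.exp (τ * s)) * ENNReal.ofReal 2 +
      (ENNReal.ofReal (η / 2) * ENNReal.ofReal (Real.exp (2 * (g * (τ * Q)) + 16 * g) * 2) +
      ENNReal.ofReal (1 / (2 * η)) * ENNReal.ofReal T.toReal) := by
    refine hL.trans (hint.trans ?_)
    rw [← hTr]
    gcongr
  rw [← ENNReal.ofReal_mul (by positivity), ← ENNReal.ofReal_mul (by positivity),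
    ← ENNReal.ofReal_mul (by positivity), ← ENNReal.ofReal_add (by positivity) (by positivity),
    ← ENNReal.ofReal_add (by positivity) (by positivity)] at hmain
  have hreal := (ENNReal.ofReal_le_ofReal_iff (by positivity)).mp hmain
  exact jump_arith g τ Q S s η T.toReal hg2 hτS rfl rfl hreal

end Pool.Agent.H85.CH2
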