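import Pool.Agent.H85.CH2.Energy

/-!
Positivity of the limit measure in the whole subcritical phase.
-/

set_option autoImplicit false

open MeasureTheory ProbabilityTheory Filter Topology Set
open scoped ENNReal NNReal

namespace Pool.Agent.H85.CH2

open Pool.Agent.Results.MP_ab74d4_pr.ChaosConvergence
open Pool.Agent.Y977.CH

variable {Ω : Type*} {mΩ : MeasurableSpace Ω} {P : Measure Ω} {ξ : ℕ → Ω → ℂ}

/-- lower bound for one factor -/
lemma factor_ge' (h : Hyp P ξ) (γ : ℝ) (k : ℕ) (hk : γ ^ 2 / 2 ≤ (k : ℝ) + 1) (z : S1) :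
    1 - lo P ξ γ k ≤ (∫ ω, Real.exp (LL k ((γ : ℂ) * (z : ℂ) ^ (k + 1)) (ξ k ω)) ∂P) *
      Real.exp (-(γ ^ 2 / 2 * qq P ξ k ((z : ℂ) ^ (k + 1)))) := by
  set x : ℝ := γ ^ 2 / 2 * qq P ξ k ((z : ℂ) ^ (k + 1)) with hx
  set I : ℝ := ∫ ω, Real.exp (LL k ((γ : ℂ) * (z : ℂ) ^ (k + 1)) (ξ k ω)) ∂P with hI
  have hI0 : 0 ≤ I := integral_nonneg fun ω => (Real.exp_pos _).le
  have hnorm : ‖(γ : ℂ) * (z : ℂ) ^ (k + 1)‖ ≤ |γ| := by
    rw [norm_mul, norm_pow, norm_coe, one_pow, mul_one, Complex.norm_real, Real.norm_eq_abs]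
  have h1 := (abs_le.mp (h.abs_mgf_sub_le k ((γ : ℂ) * (z : ℂ) ^ (k + 1)) |γ| hnorm)).1
  rw [h.qt_smul] at h1
  have h2 := h.defect_le k ((z : ℂ) ^ (k + 1)) (by rw [norm_pow, norm_coe, one_pow])
  have hq0 := h.qq_nonneg k ((z : ℂ) ^ (k + 1))
  have hq1 := h.qq_unit_le k z (norm_coe z)
  have hx0 : 0 ≤ x := by rw [hx]; positivity
  have hkpos : (0 : ℝ) < (k : ℝ) + 1 := by positivity
  have hx1 : x ≤ γ ^ 2 / 2 * (1 / ((k : ℝ) + 1)) := by rw [hx]; gcongr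
  have hx2 : x ≤ 1 := by
    refine hx1.trans ?_
    rw [mul_one_div, div_le_one hkpos]
    exact hk
  have hIge : 1 + x - γ ^ 2 / 2 * tl P ξ k - dl P ξ |γ| k ≤ I := by
    have : γ ^ 2 / 2 * (qq P ξ k ((z : ℂ) ^ (k + 1)) - qt P ξ k ((z : ℂ) ^ (k + 1))) ≤
        γ ^ 2 / 2 * tl P ξ k := by gcongr
    rw [hx]
    linarith
  have hexp : 1 - x ≤ Real.exp (-x) := by
    have := Real.add_one_le_exp (-x)
    linarith
  have hdl : 0 ≤ dl P ξ |γ| k := by have := h.prob; exact dl_nonneg P ξ |γ| k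
  have htl := h.tl_nonneg k
  have hxsq : x ^ 2 ≤ (γ ^ 2 / 2) ^ 2 * (1 / ((k : ℝ) + 1) ^ 2) := by
    calc x ^ 2 ≤ (γ ^ 2 / 2 * (1 / ((k : ℝ) + 1))) ^ 2 := pow_le_pow_left₀ hx0 hx1 2
      _ = _ := by rw [mul_pow (γ ^ 2 / 2) (1 / ((k : ℝ) + 1)), div_pow 1, one_pow]
  calc 1 - lo P ξ γ k ≤ (1 + x - γ ^ 2 / 2 * tl P ξ k - dl P ξ |γ| k) * (1 - x) := by
        unfold lo
        have ha : 0 ≤ γ ^ 2 / 2 * tl P ξ k + dl P ξ |γ| k := by positivity
        nlinarith [mul_nonneg ha hx0]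
    _ ≤ I * (1 - x) := mul_le_mul_of_nonneg_right hIge (by linarith)
    _ ≤ I * Real.exp (-x) := mul_le_mul_of_nonneg_left hexp hI0

/-- One point lower bound for the tail density. -/
lemma exists_k0' (h : Hyp P ξ) (γ : ℝ) (hs : Summable (tl P ξ)) :
    ∃ k0, 1 ≤ k0 ∧ ∀ n (z : S1),
      ENNReal.ofReal (1 / 2) ≤ ∫⁻ ω, ENNReal.ofReal (Real.exp (ET P ξ γ k0 n ω z)) ∂P := by
  have hsl := h.summable_lo γ hs
  obtain ⟨k0, hk0⟩ : ∃ k0 : ℕ, (1 ≤ k0 ∧ γ ^ 2 / 2 ≤ (k0 : ℝ)) ∧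
      ∀ n, ∑ k ∈ Finset.Ico k0 n, lo P ξ γ k ≤ 1 / 2 := by
    have h1 := hsl.hasSum.tendsto_sum_nat
    have h2 : ∀ᶠ m in atTop, ∑' k, lo P ξ γ k - 1 / 2 < ∑ k ∈ Finset.range m, lo P ξ γ k :=
      h1.eventually_const_lt (by linarith)
    obtain ⟨m, hm1, hm2⟩ := (h2.and (eventually_ge_atTop (max 1 ⌈γ ^ 2 / 2⌉₊))).exists
    refine ⟨m, ⟨(le_max_left _ _).trans hm2, ?_⟩, fun n => ?_⟩
    · exact (Nat.le_ceil _).trans (by exact_mod_cast (le_max_right _ _).trans hm2)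
    rcases le_or_gt m n with hmn | hmn
    · have h3 : ∑ k ∈ Finset.range n, lo P ξ γ k ≤ ∑' k, lo P ξ γ k :=
        hsl.sum_le_tsum _ fun k _ => h.lo_nonneg γ k
      rw [← Finset.sum_range_add_sum_Ico _ hmn] at h3
      linarith
    · rw [Finset.Ico_eq_empty (by omega)]
      simp
  refine ⟨k0, hk0.1.1, fun n z => ?_⟩
  have e1 : ∀ ω, Real.exp (ET P ξ γ k0 n ω z) =
      Real.exp (-∑ k ∈ Finset.Ico k0 n, γ ^ 2 / 2 * qq P ξ k ((z : ℂ) ^ (k + 1))) *
      Real.exp (∑ k ∈ Finset.Ico k0 n, LL k ((γ : ℂ) * (z : ℂ) ^ (k + 1)) (ξ k ω)) := by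
    intro ω
    rw [← Real.exp_add]
    congr 1
    unfold ET
    rw [Finset.sum_sub_distrib]
    simp only [LL_smul]
    ring
  have hint : Integrable (fun ω => Real.exp (ET P ξ γ k0 n ω z)) P := by
    simp only [e1]
    exact (h.integrable_exp_sum _ _).const_mul _
  rw [← ofReal_integral_eq_lintegral_ofReal hint (ae_of_all _ fun ω => (Real.exp_pos _).le)]
  apply ENNReal.ofReal_le_ofReal
  simp only [e1]
  rw [integral_const_mul, h.integral_exp_sum, ← Finset.sum_neg_distrib, Real.exp_sum,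
    ← Finset.prod_mul_distrib]
  have hle1 : ∀ k ∈ Finset.Ico k0 n, lo P ξ γ k ≤ 1 := by
    intro k hk
    have h4 : lo P ξ γ k ≤ ∑ k ∈ Finset.Ico k0 n, lo P ξ γ k :=
      Finset.single_le_sum (fun k _ => h.lo_nonneg γ k) hk
    linarith [hk0.2 n]
  calc (1 : ℝ) / 2 ≤ 1 - ∑ k ∈ Finset.Ico k0 n, lo P ξ γ k := by linarith [hk0.2 n]
    _ ≤ ∏ k ∈ Finset.Ico k0 n, (1 - lo P ξ γ k) :=
        one_sub_sum_le_prod _ _ (fun k _ => h.lo_nonneg γ k) hle1
    _ ≤ _ := by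
        apply Finset.prod_le_prod
        · intro k hk; linarith [hle1 k hk]
        · intro k hk
          rw [mul_comm]
          apply factor_ge' h γ k _ z
          have h5 : (k0 : ℝ) ≤ k := by exact_mod_cast (Finset.mem_Ico.mp hk).1
          linarith [hk0.1.2]

/-- Lower bound for the mean mass of the reference arc. -/
lemma ZZ_mean' (h : Hyp P ξ) (γ : ℝ) (hs : Summable (tl P ξ)) :
    ∃ (k0 : ℕ) (c0 : ℝ), 0 < c0 ∧ ∀ n, k0 ≤ n → ENNReal.ofReal c0 ≤ ∫⁻ ω, ZZ P ξ γ 0 n ω ∂P := by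
  have := h.prob
  obtain ⟨k0, hk0, hb⟩ := exists_k0' h γ hs
  refine ⟨k0, Real.exp (-(k0 * (|γ| + γ ^ 2 / 2))), Real.exp_pos _, fun n hn => ?_⟩
  have hFm : Measurable (fun q : Ω × S1 => ENNReal.ofReal (Real.exp (ET P ξ γ k0 n q.1 q.2))) :=
    (h.measurable_ET γ k0 n mΩ fun k _ => h.meas k).exp.ennreal_ofReal
  have h1 : 1 ≤ ∫⁻ ω, ZZ P ξ γ k0 n ω ∂P := by
    unfold ZZ
    rw [lintegral_lintegral_swap hFm.aemeasurable]
    calc (1 : ℝ≥0∞) = ENNReal.ofReal (1 / 2) * 2 := by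
          rw [show (2 : ℝ≥0∞) = ENNReal.ofReal 2 by norm_num, ← ENNReal.ofReal_mul (by norm_num)]
          norm_num
      _ ≤ ENNReal.ofReal (1 / 2) * arcLength F0 := by gcongr; exact arcLength_F0
      _ = ∫⁻ _z in F0, ENNReal.ofReal (1 / 2) ∂arcLength := by rw [setLIntegral_const]
      _ ≤ _ := lintegral_mono fun z => hb n z
  have h2 : ∫⁻ ω, ZZ P ξ γ k0 n ω ∂P ≤
      ENNReal.ofReal (Real.exp (k0 * (|γ| + γ ^ 2 / 2))) * ∫⁻ ω, ZZ P ξ γ 0 n ω ∂P := by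
    rw [← lintegral_const_mul' _ _ ENNReal.ofReal_ne_top]
    exact lintegral_mono fun ω => h.ZZ_ge γ k0 n hn ω
  have h3 := h1.trans h2
  calc ENNReal.ofReal (Real.exp (-(k0 * (|γ| + γ ^ 2 / 2))))
      = ENNReal.ofReal (Real.exp (-(k0 * (|γ| + γ ^ 2 / 2)))) * 1 := (mul_one _).symm
    _ ≤ ENNReal.ofReal (Real.exp (-(k0 * (|γ| + γ ^ 2 / 2)))) *
        (ENNReal.ofReal (Real.exp (k0 * (|γ| + γ ^ 2 / 2))) * ∫⁻ ω, ZZ P ξ γ 0 n ω ∂P) := by
        gcongr
    _ = ∫⁻ ω, ZZ P ξ γ 0 n ω ∂P := by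
        rw [← mul_assoc, ← ENNReal.ofReal_mul (Real.exp_pos _).le, ← Real.exp_add]
        simp

lemma ZZ_zero_eq (γ : ℝ) (n : ℕ) (ω : Ω) :
    ZZ P ξ γ 0 n ω = ∫⁻ z in F0, DD P ξ γ n ω z ∂arcLength := by
  unfold ZZ ET DD EE
  rw [Nat.Ico_zero_eq_range]

/-- Uniformly square integrable variables with means bounded below do not tend to zero. -/
lemma not_tendsto_zero [IsProbabilityMeasure P] (Z : ℕ → Ω → ℝ≥0∞) (hZ : ∀ k, Measurable (Z k))
    (c : ℝ) (hc : 0 < c) (D : ℝ≥0∞) (hD : D ≠ ⊤) (m : ℕ)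
    (h1 : ∀ k, m ≤ k → ENNReal.ofReal c ≤ ∫⁻ ω, Z k ω ∂P)
    (h2 : ∀ k, m ≤ k → ∫⁻ ω, (Z k ω) ^ 2 ∂P ≤ D)
    (h3 : ∀ᵐ ω ∂P, Tendsto (fun k => Z k ω) atTop (𝓝 0)) : False := by
  set K : ℝ := 4 * (D.toReal + 1) / c with hK
  have hD0 : 0 ≤ D.toReal := ENNReal.toReal_nonneg
  have hKpos : 0 < K := by rw [hK]; positivity
  have hK0 : ENNReal.ofReal K ≠ 0 := by
    rw [Ne, ENNReal.ofReal_eq_zero, not_le]; exact hKpos
  have hKt : ENNReal.ofReal K ≠ ⊤ := ENNReal.ofReal_ne_top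
  have hpt : ∀ k ω, Z k ω ≤ min (Z k ω) (ENNReal.ofReal K) +
      (ENNReal.ofReal K)⁻¹ * (Z k ω) ^ 2 := by
    intro k ω
    set x := Z k ω
    rcases le_or_gt x (ENNReal.ofReal K) with hx | hx
    · rw [min_eq_left hx]; exact le_self_add
    · refine le_trans ?_ le_add_self
      calc x = (ENNReal.ofReal K)⁻¹ * (ENNReal.ofReal K * x) := by
            rw [← mul_assoc, ENNReal.inv_mul_cancel hK0 hKt, one_mul]
        _ ≤ (ENNReal.ofReal K)⁻¹ * (x * x) := by gcongr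
        _ = (ENNReal.ofReal K)⁻¹ * x ^ 2 := by rw [sq]
  have hmin : Tendsto (fun k => ∫⁻ ω, min (Z k ω) (ENNReal.ofReal K) ∂P) atTop (𝓝 0) := by
    have hz0 : ∫⁻ _ω : Ω, (0 : ℝ≥0∞) ∂P = 0 := by simp
    rw [← hz0]
    apply tendsto_lintegral_of_dominated_convergence (fun _ => ENNReal.ofReal K)
    · intro n; exact (hZ n).min measurable_const
    · intro n; exact ae_of_all _ fun ω => min_le_right _ _
    · rw [lintegral_const, measure_univ, mul_one]; exact hKt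
    · filter_upwards [h3] with ω hω
      exact tendsto_of_tendsto_of_tendsto_of_le_of_le tendsto_const_nhds hω (fun _ => zero_le)
        (fun n => min_le_left _ _)
  have hev : ∀ᶠ k in atTop, ∫⁻ ω, min (Z k ω) (ENNReal.ofReal K) ∂P < ENNReal.ofReal (c / 4) :=
    (tendsto_order.mp hmin).2 _ (ENNReal.ofReal_pos.mpr (by positivity))
  obtain ⟨k, hk1, hk2⟩ := (hev.and (eventually_ge_atTop m)).exists
  have h7 : ∫⁻ ω, Z k ω ∂P ≤ ENNReal.ofReal (c / 4) + ENNReal.ofReal (c / 4) := by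
    refine (lintegral_mono (hpt k)).trans ?_
    rw [lintegral_add_left ((hZ k).min measurable_const),
      lintegral_const_mul' _ _ (ENNReal.inv_ne_top.mpr hK0)]
    apply add_le_add hk1.le
    calc (ENNReal.ofReal K)⁻¹ * ∫⁻ ω, (Z k ω) ^ 2 ∂P ≤ (ENNReal.ofReal K)⁻¹ * D := by
          gcongr
          exact h2 k hk2
      _ = ENNReal.ofReal (K⁻¹ * D.toReal) := by
          rw [ENNReal.ofReal_mul (by positivity), ENNReal.ofReal_inv_of_pos hKpos,
            ENNReal.ofReal_toReal hD]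
      _ ≤ ENNReal.ofReal (c / 4) := by
          apply ENNReal.ofReal_le_ofReal
          rw [hK, inv_div, div_mul_eq_mul_div, div_le_div_iff₀ (by positivity) (by norm_num)]
          nlinarith
  have h8 := (h1 k hk2).trans h7
  rw [← ENNReal.ofReal_add (by positivity) (by positivity)] at h8
  have h9 := (ENNReal.ofReal_le_ofReal_iff (by positivity)).mp h8
  linarith

/-- With finite logarithmic moment, almost surely the mass of the reference arc does not tend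
to zero, in the whole subcritical phase. -/
lemma N0_null' (h : Hyp P ξ) (γ : ℝ) (hγ : γ ^ 2 / 4 < 1) (hs : Summable (tl P ξ)) :
    P (N0 P ξ γ 0) = 0 := by
  have := h.prob
  rcases h.zero_one γ with h0 | h1
  · exact h0
  · exfalso
    obtain ⟨k0, c0, hc0, hmean⟩ := ZZ_mean' h γ hs
    set ε : ℝ := (1 - γ ^ 2 / 4) / 2 with hε
    have hε0 : 0 < ε := by rw [hε]; linarith
    have hε1 : ε ≤ 1 := by
      rw [hε]
      have : 0 ≤ γ ^ 2 := sq_nonneg γ
      linarith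
    have hc1 : γ ^ 2 / 4 + ε < 1 := by rw [hε]; linarith
    obtain ⟨r, hr, hrb⟩ := tail_bad h γ hγ ε hε0 hε1 1 (1 / 4) (by simp) (by norm_num)
    have hrev : ∀ᶠ N in atTop, r N < ENNReal.ofReal (c0 / 2) :=
      (tendsto_order.mp hr).2 _ (ENNReal.ofReal_pos.mpr (by positivity))
    obtain ⟨N, hN⟩ := hrev.exists
    set m := N + 1 with hm
    set Z : ℕ → Ω → ℝ≥0∞ := fun k ω =>
      ∫⁻ z in F0, FG P ξ γ (γ ^ 2 / 4 + ε) m k (2 ^ k) ω z ∂arcLength with hZ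
    have hZm : ∀ k, Measurable (Z k) := fun k => measurable_int_FG h γ _ m k _ F0
    have hF0m : MeasurableSet F0 := isClosed_F0.measurableSet
    have hZle : ∀ k ω, Z k ω ≤ ZZ P ξ γ 0 (2 ^ k) ω := by
      intro k ω
      rw [ZZ_zero_eq]
      apply lintegral_mono
      intro z
      exact indicator_le_self _ _ _
    have hmeas0 : ∀ n, Measurable (ZZ P ξ γ 0 n) := fun n =>
      h.measurable_ZZ γ 0 n mΩ fun k _ => h.meas k
    have hmN : MeasurableSet (N0 P ξ γ 0) := by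
      unfold N0
      have : Measurable (fun ω => limsup (fun n => ZZ P ξ γ 0 n ω) atTop) := Measurable.limsup hmeas0
      exact this (measurableSet_singleton 0)
    have hae : ∀ᵐ ω ∂P, ω ∈ N0 P ξ γ 0 := (prob_compl_eq_zero_iff hmN).mpr h1
    set D : ℝ≥0∞ := ENNReal.ofReal (Real.exp (dd P ξ (2 * |γ|) + γ ^ 2 / 2 * (2 + 1 / (1 / 4)) +
        bar (γ ^ 2 / 4 + ε) m)) *
        ENNReal.ofReal (10 * 3 / (1 - 2 ^ (γ ^ 2 / 4 + ε - 1))) * arcLength F0 with hDdef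
    have hD : D ≠ ⊤ :=
      ENNReal.mul_ne_top (ENNReal.mul_ne_top ENNReal.ofReal_ne_top ENNReal.ofReal_ne_top)
        (measure_ne_top _ _)
    have hB : ∀ k, max m k0 ≤ k → ∫⁻ ω, (Z k ω) ^ 2 ∂P ≤ D := by
      intro k hk
      apply sq_bound h γ (γ ^ 2 / 4 + ε) (by positivity) hc1 m k ((le_max_left _ _).trans hk) 1 (1 / 4)
        (by simp) (by norm_num) F0 hF0m F0_subset 3
      · have : (1 : ℝ) ≤ 2 ^ m := one_le_pow₀ (by norm_num)
        linarith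
      · intro z _ w _
        rw [Subtype.dist_eq, dist_eq_norm]
        refine lt_of_le_of_lt (norm_sub_le _ _) ?_
        rw [norm_coe, norm_coe]
        norm_num
    have hT : ∀ᵐ ω ∂P, Tendsto (fun k => Z k ω) atTop (𝓝 0) := by
      filter_upwards [hae] with ω hω
      have hω' : limsup (fun n => ZZ P ξ γ 0 n ω) atTop = 0 := hω
      have h5 : Tendsto (fun n => ZZ P ξ γ 0 n ω) atTop (𝓝 0) :=
        tendsto_of_le_liminf_of_limsup_le zero_le hω'.le
      have h6 : Tendsto (fun k : ℕ => ZZ P ξ γ 0 (2 ^ k) ω) atTop (𝓝 0) :=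
        h5.comp (tendsto_pow_atTop_atTop_of_one_lt (by norm_num))
      exact tendsto_of_tendsto_of_tendsto_of_le_of_le tendsto_const_nhds h6 (fun _ => zero_le)
        (fun k => hZle k ω)
    have hA : ∀ k, max m k0 ≤ k → ENNReal.ofReal (c0 / 2) ≤ ∫⁻ ω, Z k ω ∂P := by
      intro k hk
      have hk0k : k0 ≤ 2 ^ k := ((le_max_right _ _).trans hk).trans (Nat.lt_two_pow_self).le
      have h5 := hmean (2 ^ k) hk0k
      have hFFm : ∀ (ω : Ω) (i : ℕ), Measurable (fun z : S1 =>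
          FF P ξ γ ε ((γ ^ 2 / 4 + ε) * (i * Real.log 2)) (2 ^ i) (2 ^ k) ω z) := by
        intro ω i
        have e : Measurable (fun z : S1 => ((ω, z) : Ω × S1)) :=
          measurable_const.prodMk measurable_id
        have e2 := (h.measurable_FF γ ε ((γ ^ 2 / 4 + ε) * (i * Real.log 2)) (2 ^ i) (2 ^ k)).comp e
        exact e2
      have hFGm : ∀ ω, Measurable (fun z : S1 => FG P ξ γ (γ ^ 2 / 4 + ε) m k (2 ^ k) ω z) := by
        intro ω
        have e : Measurable (fun z : S1 => ((ω, z) : Ω × S1)) :=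
          measurable_const.prodMk measurable_id
        have e2 := (measurable_FG h γ (γ ^ 2 / 4 + ε) m k (2 ^ k)).comp e
        exact e2
      have h6 : ∀ ω, ZZ P ξ γ 0 (2 ^ k) ω ≤ Z k ω + ∑ i ∈ Finset.Ioc N k, ∫⁻ z in JJ 1 (1 / 4),
          FF P ξ γ ε ((γ ^ 2 / 4 + ε) * (i * Real.log 2)) (2 ^ i) (2 ^ k) ω z ∂arcLength := by
        intro ω
        rw [ZZ_zero_eq]
        calc ∫⁻ z in F0, DD P ξ γ (2 ^ k) ω z ∂arcLength
            ≤ ∫⁻ z in F0, (FG P ξ γ (γ ^ 2 / 4 + ε) m k (2 ^ k) ω z + ∑ i ∈ Finset.Ioc N k,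
              FF P ξ γ ε ((γ ^ 2 / 4 + ε) * (i * Real.log 2)) (2 ^ i) (2 ^ k) ω z) ∂arcLength := by
              apply lintegral_mono
              intro z
              have h7 := FG_split (P := P) (ξ := ξ) γ ε hε0 m N k (2 ^ k) ω z
              have h8 : FG P ξ γ (γ ^ 2 / 4 + ε) m N (2 ^ k) ω z = DD P ξ γ (2 ^ k) ω z := by
                unfold FG
                rw [indicator_of_mem]
                intro i hi
                have := Finset.mem_Icc.mp hi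
                omega
              rw [h8] at h7
              exact h7
          _ = ∫⁻ z in F0, FG P ξ γ (γ ^ 2 / 4 + ε) m k (2 ^ k) ω z ∂arcLength +
              ∑ i ∈ Finset.Ioc N k, ∫⁻ z in F0,
              FF P ξ γ ε ((γ ^ 2 / 4 + ε) * (i * Real.log 2)) (2 ^ i) (2 ^ k) ω z ∂arcLength := by
              rw [lintegral_add_left (hFGm ω), lintegral_finsetSum _ (fun i _ => hFFm ω i)]
          _ ≤ _ := by
              gcongr
              exact F0_subset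
      have h7 : ENNReal.ofReal c0 ≤ ∫⁻ ω, Z k ω ∂P + ENNReal.ofReal (c0 / 2) := by
        refine h5.trans ((lintegral_mono h6).trans ?_)
        rw [lintegral_add_left (hZm k)]
        gcongr
        exact (hrb N k).trans hN.le
      have h8 : ENNReal.ofReal c0 = ENNReal.ofReal (c0 / 2) + ENNReal.ofReal (c0 / 2) := by
        rw [← ENNReal.ofReal_add (by positivity) (by positivity)]
        congr 1
        ring
      rw [h8] at h7
      exact (ENNReal.add_le_add_iff_right ENNReal.ofReal_ne_top).mp h7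
    exact not_tendsto_zero (P := P) Z hZm (c0 / 2) (by positivity) D hD (max m k0) hA hB hT

/-- Positivity of the limit measure on an arc away from the real points. -/
lemma ae_pos' (h : Hyp P ξ) (γ : ℝ) (hγ : γ ^ 2 / 4 < 1) (hs : Summable (tl P ξ))
    (μ : ℕ → Ω → FiniteMeasure S1)
    (hμ : IsChaos P ξ γ μ) (μl : Ω → FiniteMeasure S1)
    (hlim : ∀ᵐ ω ∂P, Tendsto (fun n => μ n ω) atTop (𝓝 (μl ω))) :
    ∀ᵐ ω ∂P, (μl ω : Measure S1) (JJ 1 (1 / 4)) ≠ 0 := by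
  have h0 : ∀ᵐ ω ∂P, ω ∉ N0 P ξ γ 0 := measure_eq_zero_iff_ae_notMem.mp (N0_null' h γ hγ hs)
  filter_upwards [h0, h.ae_link γ μ hμ μl hlim] with ω h1 h2
  obtain ⟨C, c, hC, hc, hU, hF⟩ := h2
  have h3 := hF F0 isClosed_F0
  have h4 : limsup (fun n => ∫⁻ z in F0, DD P ξ γ n ω z ∂arcLength) atTop ≠ 0 := by
    intro h5
    apply h1
    show limsup (fun n => ZZ P ξ γ 0 n ω) atTop = 0
    simp only [ZZ_zero_eq]
    exact h5
  intro h5
  have h6 : (μl ω : Measure S1) F0 = 0 := measure_mono_null F0_subset h5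
  rw [h6] at h3
  have h7 := le_antisymm h3 zero_le
  rcases mul_eq_zero.mp h7 with h8 | h8
  · exact hc h8
  · exact h4 h8

end Pool.Agent.H85.CH2
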